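import Pool.Agent.Work.MP_f82ddf_U.Interface2

set_option autoImplicit false

/-! # THEOREM U (MP_f82ddf_nt), block FNU -/

open Pool.Agent.Work.MP_f82ddf_nt.DQ

namespace Pool.MPL

open MvPolynomial
open Pool.Agent.Work.MP_f82ddf_nt (PSpace HolomorphicOn complexPoints KobayashiHyperbolic DiscChain
  kobayashiDist eval₂_smul_hom exists_entire_curve not_kobayashi poincareDist)
open Pool.ThmP (Mor OnX OnK tm)

/-- The algebraic closure of a number field is countable. -/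
theorem FNU_countable (K : Type) [Field K] [NumberField K] : Countable (AlgebraicClosure K) := by
  rw [← Cardinal.mk_le_aleph0_iff]
  have h1 : Cardinal.mk K ≤ Cardinal.aleph0 := by
    refine (Algebra.IsAlgebraic.cardinalMk_le_max ℚ K).trans ?_
    simp
  refine (Algebra.IsAlgebraic.cardinalMk_le_max K (AlgebraicClosure K)).trans ?_
  exact max_le h1 le_rfl

/-- The form `D (s)` with the coefficients mapped to `ℂ`. -/
noncomputable def FNU_G {Ω : Type} [Field Ω] {m n : ℕ} (τ : Ω →+* ℂ)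
    (s : Fin (n + 1) → MvPolynomial (Fin (m + 1)) Ω) (D : MvPolynomial (Fin (n + 1)) Ω) :
    MvPolynomial (Fin (m + 1)) ℂ :=
  eval₂ (C.comp τ) (fun c => map τ (s c)) D

theorem FNU_G_hom {Ω : Type} [Field Ω] {m n : ℕ} (τ : Ω →+* ℂ)
    (s : Fin (n + 1) → MvPolynomial (Fin (m + 1)) Ω) (D : MvPolynomial (Fin (n + 1)) Ω)
    {a e : ℕ} (hs : ∀ c, (s c).IsHomogeneous a) (hD : D.IsHomogeneous e) :
    (FNU_G τ s D).IsHomogeneous (a * e) := by
  unfold FNU_G
  refine IsHomogeneous.eval₂ hD _ _ (fun r => ?_) (fun i => ?_)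
  · exact isHomogeneous_C _ _
  · exact (hs i).map τ

theorem FNU_G_eval {Ω : Type} [Field Ω] {m n : ℕ} (τ : Ω →+* ℂ)
    (s : Fin (n + 1) → MvPolynomial (Fin (m + 1)) Ω) (D : MvPolynomial (Fin (n + 1)) Ω)
    {M : Type} [Field M] (ψ : ℂ →+* M) (x : Fin (m + 1) → M) :
    eval₂ ψ x (FNU_G τ s D) =
      eval₂ (ψ.comp τ) (fun c => eval₂ (ψ.comp τ) x (s c)) D := by
  unfold FNU_G
  have h1 : ∀ p : MvPolynomial (Fin (m + 1)) ℂ, eval₂ ψ x p = eval₂Hom ψ x p := fun p => rfl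
  rw [h1, hom_eval₂]
  congr 1
  · ext r
    simp
  · funext c
    rw [← h1, eval₂_map]

theorem FNU_chain {m : ℕ} {X Y : Set (PSpace ℂ m)} (h : X ⊆ Y) {p q : PSpace ℂ m} {s : ℝ}
    (hc : DiscChain X p q s) : DiscChain Y p q s := by
  induction hc with
  | refl p hp => exact DiscChain.refl p (h hp)
  | step f a b q s hf hm ha hb _ ih =>
    exact DiscChain.step f a b q s hf (fun z hz => h (hm hz)) ha hb ih

theorem FNU_mono {m : ℕ} {X Y : Set (PSpace ℂ m)} (h : X ⊆ Y) (hY : KobayashiHyperbolic Y) :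
    KobayashiHyperbolic X := by
  intro p hp q hq hpq
  refine lt_of_lt_of_le (hY p (h hp) q (h hq) hpq) ?_
  unfold kobayashiDist
  refine le_iInf₂ fun s hs => ?_
  exact iInf₂_le s (FNU_chain h hs)

/-- A point of the variety at which the form `D` does not vanish. -/
theorem FNU_onto {K Ω : Type} [Field K] [Field Ω] [Infinite Ω] [Algebra K Ω] {m n : ℕ}
    {S : Set (MvPolynomial (Fin (m + 1)) K)} (g : Mor K Ω m n S)
    (D : MvPolynomial (Fin (n + 1)) Ω) {e : ℕ} (hD : D.IsHomogeneous e) (hD0 : D ≠ 0)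
    (hg : Onto g) :
    ∃ v : Fin (m + 1) → Ω, v ≠ 0 ∧ OnX S v ∧
      ∃ s ∈ g.tuples, eval (fun c => eval v (s c)) D ≠ 0 := by
  have h1 : D * X 0 ≠ 0 := mul_ne_zero hD0 (X_ne_zero 0)
  obtain ⟨w, hw⟩ : ∃ w : Fin (n + 1) → Ω, eval w (D * X 0) ≠ 0 := by
    by_contra hcon
    push Not at hcon
    exact h1 (MvPolynomial.funext fun w => by rw [hcon w, map_zero])
  rw [map_mul, eval_X] at hw
  have hw0 : w ≠ 0 := by
    intro h0
    apply right_ne_zero_of_mul hw
    rw [h0]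
    rfl
  obtain ⟨v, hv, hSv, s, hs, ⟨c₀, hc₀⟩, hprop⟩ := hg w hw0
  refine ⟨v, hv, hSv, s, hs, fun h0 => ?_⟩
  apply left_ne_zero_of_mul hw
  have h2 : w = (w c₀ / eval v (s c₀)) • fun c => eval v (s c) := by
    funext d
    have h3 := hprop c₀ d
    show w d = w c₀ / eval v (s c₀) * eval v (s d)
    rw [div_mul_eq_mul_div, eq_div_iff hc₀, mul_comm (w d), h3, mul_comm]
  have h4 : eval w D = eval₂ (RingHom.id Ω) w D := rfl
  have h5 : eval (fun c => eval v (s c)) D =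
      eval₂ (RingHom.id Ω) (fun c => eval v (s c)) D := rfl
  rw [h4, h2, eval₂_smul_hom hD, ← h5, h0, mul_zero]

/-- FNU -/
theorem p_FNU (h1 : Stmt_MPU) (h2 : Pool.ThmM0.Stmt_MREL) : Stmt_FNU := by
  intro n c hn
  obtain ⟨N₀, hN⟩ := h1 n c hn
  refine ⟨N₀, fun N hNN K _ _ l hl => ?_⟩
  have : Countable (AlgebraicClosure K) := FNU_countable K
  obtain ⟨e, D, hDh, hD0, hD⟩ := hN (AlgebraicClosure K) N l hNN hl
  refine ⟨e, D, hDh, hD0, fun k hk m S hS g hfin hdiv => ⟨fun hon => ?_, fun τ => ?_⟩⟩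
  · haveI : Infinite (AlgebraicClosure K) := inferInstance
    exact FNU_onto g D hDh hD0 hon
  · set σ : K →+* ℂ := τ.comp (algebraMap K (AlgebraicClosure K)) with hσ
    have hcurve : ∀ f : ℂ → PSpace ℂ m, HolomorphicOn f Set.univ →
        (∀ z, f z ∈ complexPoints S σ) → (∃ a b, f a ≠ f b) → ∀ z, f z ∈ ExcSet g D τ := by
      intro f hf hfX hab z
      obtain ⟨φ, hφ, i₀, hi₀, hF, hrep, hcon⟩ := exists_mer_of_curve hS σ f hf hfX
      obtain ⟨j, hj⟩ := hcon hab
      refine ⟨hfX z, fun s hs => ?_⟩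
      obtain ⟨a, ha⟩ := g.homogeneous s hs
      have hon : OnK (tm τ) S (fun j => Mer.mk (φ j) (hφ j)) := by
        intro F hFS
        have h3 : (tm τ).comp (algebraMap K (AlgebraicClosure K)) = (algebraMap ℂ Mer).comp σ := by
          rw [tm, RingHom.comp_assoc, hσ]
        rw [h3]
        exact hF F hFS
      have h4 := hD k hk K m S hS g hfin hdiv τ (fun j => Mer.mk (φ j) (hφ j)) hon
        ⟨i₀, j, by rw [hi₀]; exact one_ne_zero, fun a => by rw [hi₀, mul_one]; exact hj a⟩ s hs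
      have h5 : aeval (fun i => Mer.mk (φ (id i)) (hφ (id i))) (FNU_G τ s D) = 0 := by
        rw [aeval_def, FNU_G_eval]
        exact h4
      have h6 := h2 m f φ hφ hf hrep (m + 1) (a * e) id (FNU_G τ s D)
        (FNU_G_hom τ s D ha hDh) h5 z
      have h7 : eval (fun i => (f z).rep (id i)) (FNU_G τ s D) =
          eval₂ (RingHom.id ℂ) (f z).rep (FNU_G τ s D) := rfl
      rw [h7, FNU_G_eval, RingHom.id_comp] at h6
      exact h6
    refine ⟨hcurve, fun hX => ?_, fun hZ => ?_⟩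
    · exact FNU_mono (fun p hp => hp.1) hX
    · by_contra hX
      obtain ⟨f, hf, hfX, a, b, hab⟩ := exists_entire_curve hS σ hX
      exact not_kobayashi f hf (hcurve f hf hfX ⟨a, b, hab⟩) a b hab hZ

end Pool.MPL
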