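import Pool.Agent.Work.MP_f82ddf_U.Interface

set_option autoImplicit false

/-! # THEOREM M+: block UIR (the universal Chow form is irreducible up to a fixed factor) -/

open Pool.Agent.Work.MP_f82ddf_nt.DQ

namespace Pool.MPL

open MvPolynomial
open Pool.Agent.Work.MP_f82ddf_M5 (lineAt resAt chow at2 comb Data)
open Pool.ThmM (NonProp HypData IsRat)
open Pool.ThmM0 (Per)
open Pool.ThmM.Chow (ppt Phi Mov)

/-- a divisor of a nonzero polynomial with complex coefficients has complex coefficients -/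
theorem UIR_fix (n : ℕ) (σ : Type) (δ : MvPolynomial σ ℂ) (F : MvPolynomial σ (RX n))
    (hδ : δ ≠ 0) (h : F ∣ inc n σ δ) : ∃ G : MvPolynomial σ ℂ, G ∣ δ ∧ F = inc n σ G := by
  have e1 : ∀ G : MvPolynomial σ ℂ, commAlgEquiv ℂ (Fin (n + 1)) σ (C G) = inc n σ G := by
    intro G
    rw [commAlgEquiv_C]
    rfl
  have h1 : (commAlgEquiv ℂ (Fin (n + 1)) σ).symm F ∣ C δ := by
    have h2 := map_dvd (commAlgEquiv ℂ (Fin (n + 1)) σ).symm h
    rwa [← e1, AlgEquiv.symm_apply_apply] at h2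
  obtain ⟨G, hG, h3⟩ := (dvd_C_iff_exists hδ).1 h1
  refine ⟨G, hG, ?_⟩
  rw [← e1, ← h3, AlgEquiv.apply_symm_apply]

/-- the value of a polynomial with complex coefficients at a complex point -/
theorem UIR_eval (n : ℕ) (σ : Type) (G : MvPolynomial σ ℂ) (p : σ → ℂ) :
    eval (fun i => (C (p i) : RX n)) (inc n σ G) = C (eval p G) := by
  have h1 : (eval (fun i => (C (p i) : RX n))).comp (inc n σ) =
      (C : ℂ →+* RX n).comp (eval p) := by
    apply MvPolynomial.ringHom_ext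
    · intro r
      rw [RingHom.comp_apply, RingHom.comp_apply, eval_C, inc, map_C, eval_C]
      rfl
    · intro i
      rw [RingHom.comp_apply, RingHom.comp_apply, eval_X, inc, map_X, eval_X]
  exact RingHom.congr_fun h1 G

theorem p_UIR (hULN : Stmt_ULN) (hTR2 : Stmt_TR2) (hUSM : Stmt_USM) : Stmt_UIR := by
  intro N n d Q A hn hD
  obtain ⟨-, -, -, hUF⟩ := hULN N n d Q A hD
  obtain ⟨H, δ, hH, hHU, hδ, hdvd⟩ := hTR2 N n d Q A hD
  obtain ⟨v, b, L, h, hL, hLh, hev⟩ := hUSM N n d Q A hn hD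
  obtain ⟨μ, F, hHF, hUF'⟩ := WfDvdMonoid.max_power_factor hUF hH
  have hFdvd : F ∣ inc n (Fin 2 × Fin N) δ := by
    have h1 : IsRelPrime F (H ^ d) := ((hH.isRelPrime_iff_not_dvd.2 hHF).pow_left).symm
    exact h1.dvd_of_dvd_mul_right ((Dvd.intro_left _ hUF'.symm).trans hdvd)
  obtain ⟨Fix, hFix, hF⟩ := UIR_fix n _ δ F hδ hFdvd
  have hFix0 : Fix ≠ 0 := by
    rintro rfl
    exact hδ (zero_dvd_iff.1 hFix)
  -- the value at the special pair
  have hev2 : L * h = eval (fun p => C (ppt v b p)) H ^ μ * C (eval (ppt v b) Fix) := by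
    rw [← hev, hUF', map_mul, map_pow, hF, UIR_eval]
  have hLh0 : L * h ≠ 0 := by
    refine mul_ne_zero hL.ne_zero ?_
    rintro rfl
    exact hLh (dvd_zero L)
  have hc0 : eval (ppt v b) Fix ≠ 0 := by
    intro h0
    rw [h0, C_0, mul_zero] at hev2
    exact hLh0 hev2
  have hunit : IsUnit (C (eval (ppt v b) Fix) : RX n) := (isUnit_iff_ne_zero.2 hc0).map C
  have hLpow : L ∣ eval (fun p => C (ppt v b p)) H ^ μ := by
    rw [← hunit.dvd_mul_right, ← hev2]
    exact dvd_mul_right L h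
  have hμ0 : μ ≠ 0 := by
    rintro rfl
    rw [pow_zero] at hLpow
    exact hL.not_unit (isUnit_of_dvd_one hLpow)
  have hLH := hL.dvd_of_dvd_pow hLpow
  have hμ1 : μ = 1 := by
    by_contra hne
    have h2 : L * L ∣ L * h := by
      rw [hev2, hunit.dvd_mul_right, ← pow_two]
      exact (pow_dvd_pow_of_dvd hLH 2).trans (pow_dvd_pow _ (by omega))
    exact hLh ((mul_dvd_mul_iff_left hL.ne_zero).1 h2)
  refine ⟨Fix, H, hFix0, hH, ?_⟩
  rw [hUF', hμ1, pow_one, hF, mul_comm]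

end Pool.MPL
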