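import Pool.Agent.Work.MP_f82ddf_U.Interface
import Pool.Agent.Work.MP_f82ddf_M.C_CORE

set_option autoImplicit false

/-! # Block PTS (helper33): the result for points with values in `Mer` -/

open Pool.Agent.Work.MP_f82ddf_nt.DQ

namespace Pool.MPL

open MvPolynomial
open Pool.Agent.Work.MP_f82ddf_M5 (lineAt resAt chow at2 comb Data)
open Pool.ThmM (NonProp HypData IsRat)
open Pool.ThmM0 (Per)
open Pool.ThmM.Chow (ppt Phi Mov)

theorem PTS_smul {n e : ℕ} {F : RX n} (hF : F.IsHomogeneous e) (a : Mer)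
    (x : Fin (n + 1) → Mer) : aeval (fun i => a * x i) F = a ^ e * aeval x F := by
  rw [aeval_def, aeval_def, eval₂_eq', eval₂_eq', Finset.mul_sum]
  refine Finset.sum_congr rfl fun d hd => ?_
  have h1 : ∑ i, d i = e := by
    have h := hF (mem_support_iff.1 hd)
    rw [← h, ← Finsupp.degree_eq_sum, Finsupp.degree_eq_weight_one]
    rfl
  have h2 : (∏ i, (a * x i) ^ d i) = a ^ e * ∏ i, x i ^ d i := by
    rw [← h1, ← Finset.prod_pow_eq_pow_sum, ← Finset.prod_mul_distrib]
    exact Finset.prod_congr rfl fun i _ => mul_pow _ _ _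
  rw [h2]
  ring

theorem PTS_comp {n : ℕ} (D : RX n) (x : Fin (n + 1) → Mer)
    (h : ∀ t : ℂ, t ≠ 0 → aeval (fun i => algebraMap ℂ Mer t * x i) D = 0) (e : ℕ) :
    aeval x (homogeneousComponent e D) = 0 := by
  classical
  by_cases he : D.totalDegree < e
  · rw [homogeneousComponent_eq_zero _ _ he, map_zero]
  let p : Polynomial Mer := ∑ j ∈ Finset.range (D.totalDegree + 1),
    Polynomial.monomial j (aeval x (homogeneousComponent j D))
  have hp : p = 0 := by
    refine Polynomial.eq_zero_of_infinite_isRoot p ?_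
    have h1 : Set.Infinite ((algebraMap ℂ Mer) '' {t : ℂ | t ≠ 0}) := by
      refine Set.Infinite.image ?_ ?_
      · exact (algebraMap ℂ Mer).injective.injOn
      · have : ({t : ℂ | t ≠ 0}) = ({0} : Set ℂ)ᶜ := by
          ext t; simp
        rw [this]
        exact (Set.finite_singleton (0 : ℂ)).infinite_compl
    refine h1.mono ?_
    rintro _ ⟨t, ht, rfl⟩
    change Polynomial.IsRoot p (algebraMap ℂ Mer t)
    rw [Polynomial.IsRoot.def, Polynomial.eval_finsetSum]
    have h2 := h t ht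
    rw [← sum_homogeneousComponent D, map_sum] at h2
    rw [← h2]
    refine Finset.sum_congr rfl fun j _ => ?_
    rw [Polynomial.eval_monomial, PTS_smul (homogeneousComponent_isHomogeneous j D), mul_comm]
  have h3 : p.coeff e = aeval x (homogeneousComponent e D) := by
    change (∑ j ∈ Finset.range (D.totalDegree + 1),
      Polynomial.monomial j (aeval x (homogeneousComponent j D))).coeff e = _
    rw [Polynomial.finsetSum_coeff, Finset.sum_eq_single e]
    · rw [Polynomial.coeff_monomial, if_pos rfl]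
    · intro j _ hj
      rw [Polynomial.coeff_monomial, if_neg hj]
    · intro hne
      exfalso
      apply hne
      rw [Finset.mem_range]
      omega
  rw [← h3, hp, Polynomial.coeff_zero]

theorem p_PTS (hT3 : Pool.ThmM.Stmt_T3) (hDRP : Stmt_DRP) (hUNI : Stmt_UNI)
    (hEXPO : Pool.ThmM0.Stmt_EXPO) : Stmt_PTS := by
  classical
  intro n hn
  obtain ⟨β, hβ0, hβ⟩ := hDRP n
  obtain ⟨N₁, dmax, hT⟩ := hT3 n β
  refine ⟨N₁, fun S hS hGP hcard => ?_⟩
  obtain ⟨w, d, Q, A, T, lift, hyp, -, hTS, hβT, hdiv⟩ := hT S hS hcard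
  have hGT : GP T := fun v hv =>
    (Finset.card_le_card (Finset.filter_subset_filter _ hTS)).trans (hGP v hv)
  have hTs : ∀ y : Fin (n + 1) → ℂ, (∀ u ∈ T, ∑ i, u i * y i = 0) → y = 0 := by
    intro y hy
    by_contra hy0
    have h1 := hGT y hy0
    have h2 : (T.filter fun u => ∑ i, y i * u i = 0) = T := by
      refine Finset.filter_true_of_mem fun u hu => ?_
      rw [← hy u hu]
      exact Finset.sum_congr rfl fun i _ => mul_comm _ _
    rw [h2] at h1
    have h3 := hβ0 w d
    omega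
  have hD := Pool.ThmM.Chow.CORE_data hyp hTs
  obtain ⟨D₀, hD₀, hU⟩ := hUNI (w + 2) n d Q A hn hD
  have hD₁ : D₀ * X 0 ≠ 0 := mul_ne_zero hD₀ (X_ne_zero _)
  obtain ⟨e, he⟩ : ∃ e, homogeneousComponent e (D₀ * X 0) ≠ 0 := by
    by_contra hcon
    push Not at hcon
    apply hD₁
    rw [← sum_homogeneousComponent (D₀ * X 0)]
    exact Finset.sum_eq_zero fun i _ => hcon i
  have he1 : 1 ≤ e := by
    rcases Nat.eq_zero_or_pos e with h0 | h0
    · exfalso
      apply he
      rw [h0, homogeneousComponent_zero, coeff_mul_X']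
      simp
    · exact h0
  refine ⟨e, homogeneousComponent e (D₀ * X 0), he1, homogeneousComponent_isHomogeneous _ _, he,
    fun k x hk hNC hpow => ?_⟩
  obtain ⟨φ, hφ⟩ := hEXPO
  have hinj : Function.Injective φ := (φ : Mer →+* Mer).injective
  have hkey : ∀ t : ℂ, t ≠ 0 →
      aeval (fun i => algebraMap ℂ Mer t * φ (x i)) (D₀ * X 0) = 0 := by
    intro t ht
    have hφt : (fun i => algebraMap ℂ Mer t * φ (x i)) =
        fun i => φ (algebraMap ℂ Mer t * x i) := by
      funext i
      rw [map_mul, AlgHom.commutes]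
    have ht' : algebraMap ℂ Mer t ≠ 0 := (map_ne_zero _).2 ht
    obtain ⟨i₀, j₀, hi₀, hj₀⟩ := hNC
    have hNC' : NC (fun i => φ (algebraMap ℂ Mer t * x i)) := by
      refine ⟨i₀, j₀, (map_ne_zero _).2 (mul_ne_zero ht' hi₀), fun z hz => hj₀ z ?_⟩
      have h1 : φ (algebraMap ℂ Mer t * x j₀) =
          φ (algebraMap ℂ Mer z * (algebraMap ℂ Mer t * x i₀)) := by
        rw [map_mul φ (algebraMap ℂ Mer z), AlgHom.commutes]
        exact hz
      have h2 := hinj h1
      apply mul_left_cancel₀ ht'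
      rw [h2]
      ring
    have hx0 : (fun i => φ (algebraMap ℂ Mer t * x i)) ≠ 0 := by
      intro h
      have h1 := congrFun h i₀
      exact (map_ne_zero φ).2 (mul_ne_zero ht' hi₀) h1
    obtain ⟨s, hs⟩ := IsAlgClosed.exists_pow_nat_eq t (show 0 < k by omega)
    have hpow' : ∀ u ∈ T, ∃ y : Mer,
        ∑ i, algebraMap ℂ Mer (u i) * φ (algebraMap ℂ Mer t * x i) = y ^ k := by
      intro u hu
      obtain ⟨y, hy⟩ := hpow u (hTS hu)
      refine ⟨algebraMap ℂ Mer s * φ y, ?_⟩
      rw [mul_pow, ← map_pow φ, ← hy, ← map_pow, hs, map_sum, Finset.mul_sum]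
      refine Finset.sum_congr rfl fun i _ => ?_
      rw [map_mul, map_mul, AlgHom.commutes, AlgHom.commutes]
      ring
    obtain ⟨c, Fix, Psi, hPhi⟩ := hβ w d Q A T lift hyp hβT hGT hdiv k _ (by omega) hx0
      (fun i => hφ _) hpow'
    have h3 := hU k _ c Fix Psi hk hNC' hPhi
    rw [hφt, map_mul, h3, zero_mul]
  have h4 := PTS_comp (D₀ * X 0) (fun i => φ (x i)) hkey e
  have h5 : φ (aeval x (homogeneousComponent e (D₀ * X 0))) =
      aeval (fun i => φ (x i)) (homogeneousComponent e (D₀ * X 0)) := by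
    rw [← AlgHom.comp_apply]
    congr 1
    refine MvPolynomial.algHom_ext fun i => ?_
    simp
  rw [← h5] at h4
  exact hinj (by rw [h4, map_zero])

end Pool.MPL
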