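import Pool.Agent.Work.MP_f82ddf_U.Interface

set_option autoImplicit false

/-! # THEOREM M+, block DSC: the discriminant on a generic line -/

namespace Pool.MPL

open MvPolynomial

/-- `lineG` as a ring homomorphism. -/
noncomputable def DSC_hom (σ R : Type) [CommRing R] :
    MvPolynomial σ R →+* Polynomial (MvPolynomial (σ ⊕ σ) R) :=
  eval₂Hom (Polynomial.C.comp C)
    (fun i => Polynomial.C (X (Sum.inl i)) * Polynomial.X + Polynomial.C (X (Sum.inr i)))

theorem DSC_hom_apply {σ R : Type} [CommRing R] (H : MvPolynomial σ R) :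
    DSC_hom σ R H = lineG H := rfl

/-- The value at `s = t`, `γ = X`, `β = 0`. -/
noncomputable def DSC_ev (σ R : Type) [CommRing R] (t : MvPolynomial σ R) :
    Polynomial (MvPolynomial (σ ⊕ σ) R) →+* MvPolynomial σ R :=
  Polynomial.eval₂RingHom (eval₂Hom C (Sum.elim X fun _ => 0)) t

theorem DSC_ev_line {σ R : Type} [CommRing R] (t : MvPolynomial σ R) (H : MvPolynomial σ R) :
    DSC_ev σ R t (lineG H) = eval₂Hom C (fun i => X i * t) H := by
  rw [← DSC_hom_apply, ← RingHom.comp_apply]
  congr 1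
  apply MvPolynomial.ringHom_ext
  · intro r
    simp [DSC_ev, DSC_hom]
  · intro i
    simp [DSC_ev, DSC_hom]

/-- If `lineG H` does not depend on `s` then `H` is a constant. -/
theorem DSC_deg {σ R : Type} [CommRing R] (H : MvPolynomial σ R)
    (h : (lineG H).natDegree = 0) : ∃ r, H = C r := by
  obtain ⟨c, hc⟩ : ∃ c, lineG H = Polynomial.C c :=
    ⟨_, Polynomial.eq_C_of_natDegree_eq_zero h⟩
  have h1 := DSC_ev_line (1 : MvPolynomial σ R) H
  have h0 := DSC_ev_line (0 : MvPolynomial σ R) H
  rw [hc] at h0 h1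
  simp only [DSC_ev, Polynomial.coe_eval₂RingHom, Polynomial.eval₂_C] at h0 h1
  rw [h1] at h0
  simp only [mul_one, mul_zero, coe_eval₂Hom] at h0
  have h2 : eval₂ C X H = H := eval₂_eta H
  have h3 : (eval₂ C (fun i => X i) H : MvPolynomial σ R) = H := h2
  rw [h3] at h0
  refine ⟨constantCoeff H, ?_⟩
  conv_lhs => rw [h0]
  have h4 : (eval₂Hom C (fun _ => 0) : MvPolynomial σ R →+* MvPolynomial σ R) =
      C.comp constantCoeff := by
    apply MvPolynomial.ringHom_ext
    · intro r
      simp
    · intro i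
      simp
  exact congrArg (fun g : MvPolynomial σ R →+* MvPolynomial σ R => g H) h4

/-- `lineG` commutes with changes of coefficients. -/
theorem DSC_map {σ R M : Type} [CommRing R] [CommRing M] (φ : R →+* M) (H : MvPolynomial σ R) :
    lineG (map φ H) = (lineG H).map (map φ) := by
  rw [← DSC_hom_apply, ← DSC_hom_apply, ← Polynomial.coe_mapRingHom, ← RingHom.comp_apply,
    ← RingHom.comp_apply]
  congr 1
  apply MvPolynomial.ringHom_ext
  · intro r
    simp [DSC_hom]
  · intro i
    simp [DSC_hom]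

theorem p_DSC : Stmt_PRG → Pool.Agent.Work.MP_f82ddf_M5.Stmt_RES → Stmt_DSC := by
  intro hPRG hRES σ R _ _ _ _ _ H hH
  by_cases hc : ∃ r, H = C r
  · obtain ⟨r, hr⟩ := hc
    refine ⟨r, ?_, ?_⟩
    · rintro rfl
      rw [C_0] at hr
      exact hH.ne_zero hr
    · intro M _ φ P hP hdvd
      by_contra hne
      rw [hr, map_C] at hdvd
      have h1 : IsUnit (C (φ r) : MvPolynomial σ M) := (IsUnit.mk0 _ hne).map C
      have h2 : IsUnit (P ^ 2) := isUnit_of_dvd_unit hdvd h1
      exact hP.not_isUnit ((isUnit_pow_iff two_ne_zero).mp h2)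
  have hprime : Prime (lineG H) := hPRG σ R H hH.prime
  obtain ⟨m, hm⟩ : ∃ m, m = (lineG H).natDegree := ⟨_, rfl⟩
  have hm0 : 0 < m := by
    rw [Nat.pos_iff_ne_zero]
    intro h
    rw [hm] at h
    exact hc (DSC_deg H h)
  obtain ⟨g, hg⟩ : ∃ g, g = Polynomial.derivative (lineG H) := ⟨_, rfl⟩
  have hg0 : g ≠ 0 := by
    rw [hg, Polynomial.derivative_ne_zero, ← hm]
    omega
  have hgd : g.natDegree ≤ m - 1 := by
    rw [hg, hm]
    exact Polynomial.natDegree_derivative_le _
  have hnd : ¬ lineG H ∣ g := by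
    intro h
    have := Polynomial.natDegree_le_of_dvd h hg0
    omega
  have hres := hRES _ (lineG H) g m (m - 1) hprime hm.symm hm0 hgd hnd
  obtain ⟨d, hd⟩ : ∃ d, coeff d ((lineG H).resultant g m (m - 1)) ≠ 0 := by
    by_contra hcon
    push Not at hcon
    apply hres
    ext d
    rw [hcon d, coeff_zero]
  refine ⟨_, hd, ?_⟩
  intro M _ φ P hP hdvd
  -- the specialisation
  have h1 : lineG P ^ 2 ∣ (lineG H).map (map φ) := by
    rw [← DSC_map, ← DSC_hom_apply, ← DSC_hom_apply, ← map_pow]
    exact map_dvd _ hdvd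
  obtain ⟨q, hq⟩ := h1
  have h2 : lineG P ∣ (lineG H).map (map φ) := by
    rw [hq]
    exact Dvd.intro (lineG P * q) (by ring)
  have h3 : lineG P ∣ g.map (map φ) := by
    rw [hg, ← Polynomial.derivative_map, hq, Polynomial.derivative_mul, Polynomial.derivative_pow]
    refine dvd_add ?_ ?_
    · refine Dvd.dvd.mul_right ?_ _
      refine Dvd.dvd.mul_right ?_ _
      refine Dvd.dvd.mul_left ?_ _
      simp
    · exact Dvd.intro (lineG P * Polynomial.derivative q) (by ring)
  obtain ⟨p', q', -, -, hpq⟩ := Polynomial.exists_mul_add_mul_eq_C_resultant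
    ((lineG H).map (map φ)) (g.map (map φ)) (m := m) (n := m - 1)
    (by rw [hm]; exact Polynomial.natDegree_map_le)
    (le_trans Polynomial.natDegree_map_le hgd) (Or.inl (by omega))
  rw [Polynomial.resultant_map_map] at hpq
  have h4 : lineG P ∣ Polynomial.C (map φ ((lineG H).resultant g m (m - 1))) := by
    rw [← hpq]
    exact dvd_add (h2.mul_right _) (h3.mul_right _)
  have h5 : map φ ((lineG H).resultant g m (m - 1)) = 0 := by
    by_contra hne
    have h6 : (Polynomial.C (map φ ((lineG H).resultant g m (m - 1))) :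
        Polynomial (MvPolynomial (σ ⊕ σ) M)) ≠ 0 := by
      rw [Ne, Polynomial.C_eq_zero]
      exact hne
    have h7 := Polynomial.natDegree_le_of_dvd h4 h6
    rw [Polynomial.natDegree_C, Nat.le_zero] at h7
    obtain ⟨r, hr⟩ := DSC_deg P h7
    have hr0 : r ≠ 0 := by
      rintro rfl
      rw [C_0] at hr
      exact hP.ne_zero hr
    apply hP.not_isUnit
    rw [hr]
    exact (IsUnit.mk0 _ hr0).map C
  have h8 := congrArg (coeff d) h5
  rw [coeff_map, coeff_zero] at h8
  exact h8

end Pool.MPL
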