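import Pool.Agent.Work.MP_f82ddf_U.Interface2

set_option autoImplicit false

/-! # Block DSE (helper27)

A subspace of the space of the complex polynomials which is stable under the automorphisms of `ℂ`
over `τ(Ω)` and is not zero contains a nonzero polynomial with coefficients in `τ(Ω)`: take a
nonzero element with the smallest number of monomials, one coefficient being `1`. -/

namespace Pool.MPL

open MvPolynomial

theorem DSE_coeff {N : ℕ} (α : ℂ ≃+* ℂ) (Q : MvPolynomial (Fin N) ℂ) (m : Fin N →₀ ℕ) :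
    coeff m (aq α Q) = α (coeff m Q) := by
  simp [aq, coeff_map]

theorem DSE_stable {Ω : Type} [Field Ω] (τ : Ω →+* ℂ) {N : ℕ} (D : MvPolynomial (Fin N) ℂ)
    (β : ℂ ≃+* ℂ) (hβ : ∀ a, β (τ a) = τ a) (E : MvPolynomial (Fin N) ℂ)
    (hE : E ∈ Submodule.span ℂ
      {E : MvPolynomial (Fin N) ℂ | ∃ α : ℂ ≃+* ℂ, (∀ a, α (τ a) = τ a) ∧ E = aq α D}) :
    aq β E ∈ Submodule.span ℂ
      {E : MvPolynomial (Fin N) ℂ | ∃ α : ℂ ≃+* ℂ, (∀ a, α (τ a) = τ a) ∧ E = aq α D} := by
  induction hE using Submodule.span_induction with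
  | mem x hx =>
    obtain ⟨α, hα, rfl⟩ := hx
    refine Submodule.subset_span ⟨α.trans β, fun a => ?_, ?_⟩
    · simp [hα, hβ]
    · ext m
      simp [DSE_coeff]
  | zero =>
    have : aq β (0 : MvPolynomial (Fin N) ℂ) = 0 := by simp [aq]
    rw [this]
    exact Submodule.zero_mem _
  | add x y _ _ hx hy =>
    have : aq β (x + y) = aq β x + aq β y := by simp [aq]
    rw [this]
    exact Submodule.add_mem _ hx hy
  | smul c x _ hx =>
    have : aq β (c • x) = β c • aq β x := by
      ext m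
      simp [DSE_coeff]
    rw [this]
    exact Submodule.smul_mem _ _ hx

theorem p_DSE (h1 : Stmt_FXF) : Stmt_DSE := by
  classical
  intro Ω _ _ _ τ n e D hD hDe
  set W := Submodule.span ℂ
    {E : RX n | ∃ α : ℂ ≃+* ℂ, (∀ a, α (τ a) = τ a) ∧ E = aq α D} with hW
  have hDW : D ∈ W := by
    refine Submodule.subset_span ⟨RingEquiv.refl ℂ, fun a => rfl, ?_⟩
    ext m
    simp [DSE_coeff]
  have hhom : ∀ E ∈ W, E.IsHomogeneous e := by
    intro E hE
    rw [hW] at hE
    induction hE using Submodule.span_induction with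
    | mem x hx =>
      obtain ⟨α, _, rfl⟩ := hx
      exact hDe.map _
    | zero => exact isHomogeneous_zero _ _ _
    | add x y _ _ hx hy => exact hx.add hy
    | smul c x _ hx =>
      rw [smul_eq_C_mul]
      simpa using (isHomogeneous_C (Fin (n + 1)) c).mul hx
  -- a nonzero element with the smallest number of monomials
  have hex : ∃ k : ℕ, ∃ E ∈ W, E ≠ 0 ∧ E.support.card = k := ⟨_, D, hDW, hD, rfl⟩
  obtain ⟨E, hEW, hE0, hEk⟩ := Nat.find_spec hex
  have hmin : ∀ E' ∈ W, E'.support.card < E.support.card → E' = 0 := by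
    intro E' hE' hlt
    by_contra hne
    rw [hEk] at hlt
    exact Nat.find_min hex hlt ⟨E', hE', hne, rfl⟩
  obtain ⟨m₀, hm₀⟩ : ∃ m, coeff m E ≠ 0 := by
    by_contra hall
    push Not at hall
    exact hE0 (by ext m; simpa using hall m)
  set E₁ : RX n := (coeff m₀ E)⁻¹ • E with hE₁
  have hE₁W : E₁ ∈ W := Submodule.smul_mem _ _ hEW
  have hE₁0 : E₁ ≠ 0 := smul_ne_zero (inv_ne_zero hm₀) hE0
  have hE₁m : coeff m₀ E₁ = 1 := by
    rw [hE₁, coeff_smul, smul_eq_mul, inv_mul_cancel₀ hm₀]
  have hsupp : E₁.support = E.support := by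
    ext m
    rw [mem_support_iff, mem_support_iff, hE₁, coeff_smul, smul_eq_mul]
    constructor
    · intro h h'
      exact h (by rw [h', mul_zero])
    · intro h
      exact mul_ne_zero (inv_ne_zero hm₀) h
  have hfix : ∀ β : ℂ ≃+* ℂ, (∀ a, β (τ a) = τ a) → aq β E₁ = E₁ := by
    intro β hβ
    have h1W : E₁ - aq β E₁ ∈ W := Submodule.sub_mem _ hE₁W (DSE_stable τ D β hβ E₁ hE₁W)
    have hlt : (E₁ - aq β E₁).support.card < E.support.card := by
      rw [← hsupp]
      refine Finset.card_lt_card ⟨fun m hm => ?_, fun hsub => ?_⟩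
      · rw [mem_support_iff] at hm ⊢
        intro h0
        exact hm (by rw [coeff_sub, DSE_coeff, h0, map_zero, sub_zero])
      · have hm : m₀ ∈ (E₁ - aq β E₁).support :=
          hsub (by rw [mem_support_iff, hE₁m]; exact one_ne_zero)
        rw [mem_support_iff, coeff_sub, DSE_coeff, hE₁m, map_one, sub_self] at hm
        exact hm rfl
    exact (sub_eq_zero.mp (hmin _ h1W hlt)).symm
  have hrange : ∀ m, ∃ a, τ a = coeff m E₁ := by
    intro m
    by_contra hno
    push Not at hno
    obtain ⟨α, hα, hne⟩ := h1 Ω τ (coeff m E₁) hno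
    apply hne
    rw [← DSE_coeff, hfix α hα]
  choose g hg using hrange
  set D₀ : MvPolynomial (Fin (n + 1)) Ω := ∑ m ∈ E₁.support, monomial m (g m) with hD₀
  have hmap : map τ D₀ = E₁ := by
    rw [hD₀, map_sum]
    conv_rhs => rw [E₁.as_sum]
    exact Finset.sum_congr rfl fun m _ => by rw [map_monomial, hg]
  refine ⟨D₀, ?_, ?_, ?_⟩
  · intro h0
    apply hE₁0
    rw [← hmap, h0, map_zero]
  · have h2 := hhom _ hE₁W
    rw [← hmap] at h2
    exact IsHomogeneous.of_map τ.injective h2
  · rw [hmap]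
    exact hE₁W

end Pool.MPL
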