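import Pool.Agent.Work.MP_f82ddf_U.Interface
import Pool.Agent.Work.MP_f82ddf_M5.T_FUN

set_option autoImplicit false

/-! # THEOREM M+, block FPR -/

namespace Pool.MPL

open MvPolynomial
open Pool.Agent.Work.MP_f82ddf_M5 (lineAt)

/-- the renaming of the variables -/
def FPR_e (N : ℕ) : Fin N ⊕ Fin N ≃ Fin 2 × Fin N where
  toFun := Sum.elim (fun i => (0, i)) (fun i => (1, i))
  invFun := fun p => if p.1 = 0 then Sum.inl p.2 else Sum.inr p.2
  left_inv := by
    rintro (i | i)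
    · simp
    · simp
  right_inv := by
    rintro ⟨j, i⟩
    fin_cases j
    · simp
    · simp

/-- the isomorphism of the polynomial rings in `s` -/
noncomputable def FPR_E (N : ℕ) :
    Polynomial (MvPolynomial (Fin N ⊕ Fin N) ℂ) ≃+* Polynomial (MvPolynomial (Fin 2 × Fin N) ℂ) :=
  Polynomial.mapEquiv (renameEquiv ℂ (FPR_e N)).toRingEquiv

theorem FPR_E_line (N : ℕ) (F : MvPolynomial (Fin N) ℂ) :
    FPR_E N (lineAt (B := MvPolynomial (Fin N ⊕ Fin N) ℂ) C F
      (fun i => rename Sum.inl (X i : MvPolynomial (Fin N) ℂ)) (fun i => X (Sum.inr i))) = f0 F := by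
  have h1 := Pool.Agent.Work.MP_f82ddf_M5.FUN.line_map (R := ℂ)
    (C : ℂ →+* MvPolynomial (Fin N ⊕ Fin N) ℂ)
    ((rename (FPR_e N) : MvPolynomial (Fin N ⊕ Fin N) ℂ →ₐ[ℂ] MvPolynomial (Fin 2 × Fin N) ℂ) :
      MvPolynomial (Fin N ⊕ Fin N) ℂ →+* MvPolynomial (Fin 2 × Fin N) ℂ) F
    (fun i => rename Sum.inl (X i : MvPolynomial (Fin N) ℂ)) (fun i => X (Sum.inr i))
  have e1 : ((rename (FPR_e N) : MvPolynomial (Fin N ⊕ Fin N) ℂ →ₐ[ℂ]
        MvPolynomial (Fin 2 × Fin N) ℂ) :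
      MvPolynomial (Fin N ⊕ Fin N) ℂ →+* MvPolynomial (Fin 2 × Fin N) ℂ).comp
      (C : ℂ →+* MvPolynomial (Fin N ⊕ Fin N) ℂ) = C := by
    ext r : 1
    simp
  have e2 : (fun i : Fin N => ((rename (FPR_e N) : MvPolynomial (Fin N ⊕ Fin N) ℂ →ₐ[ℂ]
        MvPolynomial (Fin 2 × Fin N) ℂ) :
      MvPolynomial (Fin N ⊕ Fin N) ℂ →+* MvPolynomial (Fin 2 × Fin N) ℂ)
      (rename Sum.inl (X i : MvPolynomial (Fin N) ℂ))) = fun i => X (0, i) := by
    funext i
    simp [FPR_e]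
  have e3 : (fun i : Fin N => ((rename (FPR_e N) : MvPolynomial (Fin N ⊕ Fin N) ℂ →ₐ[ℂ]
        MvPolynomial (Fin 2 × Fin N) ℂ) :
      MvPolynomial (Fin N ⊕ Fin N) ℂ →+* MvPolynomial (Fin 2 × Fin N) ℂ)
      (X (Sum.inr i))) = fun i => X (1, i) := by
    funext i
    simp [FPR_e]
  rw [e1, e2, e3] at h1
  exact h1

theorem p_FPR (h1 : Pool.Agent.Work.MP_f82ddf_M5.Stmt_PRI)
    (h2 : Pool.Agent.Work.MP_f82ddf_M5.Stmt_DEG) : Stmt_FPR := by
  intro N d Q hirr hhom
  obtain ⟨hp, hd⟩ := h1 N (Fin N) Q (fun i => X i) hirr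
  have hdeg := h2 N d ℂ (MvPolynomial (Fin 2 × Fin N) ℂ) C Q (fun i => X (0, i))
    (fun i => X (1, i)) hhom
  have hco : (f0 Q).coeff d ≠ 0 := by
    have h3 : (f0 Q).coeff d = rename (fun i : Fin N => ((0, i) : Fin 2 × Fin N)) Q := by
      have := hdeg.2.1
      unfold f0
      rw [this]
      have h5 : (eval₂Hom (C : ℂ →+* MvPolynomial (Fin 2 × Fin N) ℂ)
          (fun i : Fin N => (X (0, i) : MvPolynomial (Fin 2 × Fin N) ℂ))) =
          (rename (fun i : Fin N => ((0, i) : Fin 2 × Fin N)) :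
            MvPolynomial (Fin N) ℂ →ₐ[ℂ] MvPolynomial (Fin 2 × Fin N) ℂ).toRingHom := by
        apply MvPolynomial.ringHom_ext
        · intro r
          simp
        · intro i
          simp
      exact RingHom.congr_fun h5 Q
    rw [h3]
    intro h0
    have hinj : Function.Injective (fun i : Fin N => ((0, i) : Fin 2 × Fin N)) := by
      intro i j hij
      simpa using hij
    exact hirr.ne_zero ((rename_injective _ hinj) (by rw [h0, map_zero]))
  refine ⟨?_, ?_, ?_, hco, ?_⟩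
  · by_contra hlt
    have hd0 : d = 0 := by omega
    subst hd0
    have hc : Q = C (coeff 0 Q) := by
      have h4 : Q.totalDegree = 0 := hhom.totalDegree hirr.ne_zero
      exact (totalDegree_eq_zero_iff_eq_C).mp h4
    have hu : IsUnit Q := by
      rw [hc]
      apply IsUnit.map
      rw [isUnit_iff_ne_zero]
      intro h0
      rw [h0, map_zero] at hc
      exact hirr.ne_zero hc
    exact hirr.not_isUnit hu
  · rw [← FPR_E_line]
    exact (MulEquiv.prime_iff (FPR_E N).toMulEquiv).mpr hp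
  · apply le_antisymm
    · exact hdeg.1
    · exact Polynomial.le_natDegree_of_ne_zero hco
  · intro G hG
    apply hd G
    rw [← FPR_E_line, ← FPR_E_line] at hG
    exact (map_dvd_iff (FPR_E N)).mp hG

end Pool.MPL
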