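import Pool.Agent.Work.MP_f82ddf_U.Interface2

set_option autoImplicit false

namespace Pool.MPL

theorem FXF_inj (Ω : Type) [Field Ω] [IsAlgClosed Ω] (τ : Ω →+* ℂ) (z : ℂ) (hz : ∀ a, τ a ≠ z) :
    Function.Injective (Polynomial.eval₂RingHom τ z) := by
  rw [injective_iff_map_eq_zero]
  intro p hp
  by_contra hp0
  have h1 : Polynomial.eval₂ τ z p = 0 := hp
  have h2 : p.Splits := IsAlgClosed.splits p
  have h3 := h2.eq_prod_roots
  rw [h3, Polynomial.eval₂_mul, Polynomial.eval₂_C, Polynomial.eval₂_multiset_prod,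
    mul_eq_zero] at h1
  rcases h1 with h1 | h1
  · rw [map_eq_zero, Polynomial.leadingCoeff_eq_zero] at h1
    exact hp0 h1
  · rw [Multiset.prod_eq_zero_iff, Multiset.map_map, Multiset.mem_map] at h1
    obtain ⟨a, -, ha⟩ := h1
    simp only [Function.comp_apply, Polynomial.eval₂_sub, Polynomial.eval₂_X,
      Polynomial.eval₂_C] at ha
    exact hz a (sub_eq_zero.mp ha).symm

theorem FXF_count (Ω : Type) [Field Ω] [Countable Ω] : Countable (FractionRing (Polynomial Ω)) := by
  have h1 : Countable (Polynomial Ω) := by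
    rw [← Cardinal.mk_le_aleph0_iff]
    exact Polynomial.cardinalMk_le_max.trans (max_le (Cardinal.mk_le_aleph0_iff.mpr inferInstance) le_rfl)
  have h3 : Function.Surjective (fun p : Polynomial Ω × Polynomial Ω =>
      (algebraMap (Polynomial Ω) (FractionRing (Polynomial Ω)) p.1) /
        (algebraMap (Polynomial Ω) (FractionRing (Polynomial Ω)) p.2)) := by
    intro x
    obtain ⟨a, b, -, h⟩ := IsFractionRing.div_surjective (A := Polynomial Ω) x
    exact ⟨(a, b), h⟩
  exact h3.countable

theorem p_FXF (hAUT : Stmt_AUT) : Stmt_FXF := by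
  intro Ω _ _ _ τ z hz
  have hz1 : ∀ a, τ a ≠ z + 1 := by
    intro a ha
    apply hz (a - 1)
    rw [map_sub, map_one, ha]
    ring
  have := FXF_count Ω
  let g1 : FractionRing (Polynomial Ω) →+* ℂ := IsFractionRing.lift (FXF_inj Ω τ z hz)
  let g2 : FractionRing (Polynomial Ω) →+* ℂ := IsFractionRing.lift (FXF_inj Ω τ (z + 1) hz1)
  obtain ⟨α, hα⟩ := hAUT (FractionRing (Polynomial Ω)) g1 g2
  refine ⟨α, ?_, ?_⟩
  · intro a
    have h := hα (algebraMap (Polynomial Ω) _ (Polynomial.C a))
    simp only [g1, g2, IsFractionRing.lift_algebraMap, Polynomial.coe_eval₂RingHom,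
      Polynomial.eval₂_C] at h
    exact h
  · have h := hα (algebraMap (Polynomial Ω) _ Polynomial.X)
    simp only [g1, g2, IsFractionRing.lift_algebraMap, Polynomial.coe_eval₂RingHom,
      Polynomial.eval₂_X] at h
    rw [h]
    intro h2
    exact one_ne_zero (add_eq_left.mp h2)

end Pool.MPL
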