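import Pool.Agent.Work.MP_f82ddf_U.Interface

set_option autoImplicit false

/-! Block MFC of THEOREM M+ (helper68). -/

open Pool.Agent.Work.MP_f82ddf_nt.DQ

namespace Pool.MPL

open MvPolynomial
open Pool.ThmM.Chow (Phi Mov)

theorem MFC_ne {σ : Type} {Φ : MvPolynomial σ Mer} (h : Mov Φ) : Φ ≠ 0 := by
  intro h0
  have h1 := h 0 0
  apply h1
  rw [h0, map_zero, zero_mul]

theorem MFC_dvd {σ : Type} {A P Psi : MvPolynomial σ Mer} {k : ℕ} (hk : 2 ≤ k) (hd : P ∣ Psi) :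
    P ^ 2 ∣ A * Psi ^ k := by
  have h1 : P ^ 2 ∣ P ^ k := pow_dvd_pow P hk
  have h2 : P ^ k ∣ Psi ^ k := pow_dvd_pow_of_dvd hd k
  exact dvd_mul_of_dvd_right (h1.trans h2) A

theorem MFC_dvd2 {σ : Type} {A P : MvPolynomial σ Mer} {s : Finset (MvPolynomial σ Mer)}
    {m : MvPolynomial σ Mer → ℕ} (hP : P ∈ s) (hm : m P ≠ 0) :
    P ∣ A * ∏ P ∈ s, P ^ m P := by
  have h1 : P ∣ P ^ m P := dvd_pow_self P hm
  have h2 : P ^ m P ∣ ∏ P ∈ s, P ^ m P := Finset.dvd_prod_of_mem (fun P => P ^ m P) hP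
  exact dvd_mul_of_dvd_right (h1.trans h2) A

theorem p_MFC (hFAC : Pool.ThmM.Chow.Stmt_FAC) : Stmt_MFC := by
  intro σ _ k Φ Psi c Fix hk hMov hΦ
  have hk0 : k ≠ 0 := by omega
  have hne : Φ ≠ 0 := MFC_ne hMov
  have hPsi : Psi ≠ 0 := by
    intro h0
    apply hne
    rw [hΦ, h0, zero_pow hk0, mul_zero]
  obtain ⟨c', Fix', Psi', s, m, h1, h2, h3⟩ := hFAC σ 0 Psi hPsi
  rw [pow_zero, mul_one] at h1
  by_cases hs : s = ∅
  · exfalso
    rw [hs, Finset.prod_empty, mul_one] at h1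
    refine hMov (c * c' ^ k) (Fix * Fix' ^ k) ?_
    rw [hΦ, h1, map_mul (map (algebraMap ℂ Mer)), map_pow (map (algebraMap ℂ Mer)),
      map_mul C, map_pow C, mul_pow]
    ring
  · obtain ⟨P, hP⟩ := Finset.nonempty_iff_ne_empty.mpr hs
    obtain ⟨hi, hM, hm⟩ := h2 P hP
    have hm0 : m P ≠ 0 := by
      intro h0
      apply hm
      rw [h0]
    have hd : P ∣ Psi := by
      rw [h1]
      exact MFC_dvd2 hP hm0
    refine ⟨P, hi, hM, ?_⟩
    rw [hΦ]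
    exact MFC_dvd hk hd

end Pool.MPL
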