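import Pool.Agent.Work.MP_f82ddf_U.Interface
import Pool.Agent.Work.MP_f82ddf_M1.Interface3

set_option autoImplicit false

/-! # THEOREM M+, block MIR: a moving irreducible polynomial does not divide a complex one -/

open Pool.Agent.Work.MP_f82ddf_nt.DQ

namespace Pool.MPL

open MvPolynomial
open Pool.ThmM (dz)
open Pool.ThmM.Chow (Mov)

theorem MIR_pow (hDZR : Pool.ThmM.Stmt_DZR) {σ : Type} (P : MvPolynomial σ Mer) (m : ℕ) :
    dz (P ^ (m + 1)) = ((m + 1 : ℕ) : MvPolynomial σ Mer) * P ^ m * dz P := by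
  induction m with
  | zero => simp
  | succ m ih =>
    rw [pow_succ, hDZR.2.2.1, ih]
    push_cast
    ring

theorem p_MIR (hDVD : Pool.ThmM.Stmt_DVD) (hDZR : Pool.ThmM.Stmt_DZR) : Stmt_MIR := by
  intro σ _ P G hP hMov hG hdvd
  have hprime : Prime P := hP.prime
  have hG' : map (algebraMap ℂ Mer) G ≠ 0 := by
    intro h
    apply hG
    apply map_injective _ (algebraMap ℂ Mer).injective
    rw [h, map_zero]
  have hfin := FiniteMultiplicity.of_prime_left hprime hG'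
  obtain ⟨F, hF1, hF2⟩ := hfin.exists_eq_pow_mul_and_not_dvd
  generalize multiplicity P (map (algebraMap ℂ Mer) G) = m at hF1
  obtain ⟨m, rfl⟩ : ∃ k, m = k + 1 := by
    rcases m with _ | m
    · rw [pow_zero, one_mul] at hF1
      exact absurd (hF1 ▸ hdvd) hF2
    · exact ⟨m, rfl⟩
  have h0 : dz (map (algebraMap ℂ Mer) G) = 0 := (hDZR.2.2.2.2.2 σ _).2 ⟨G, rfl⟩
  rw [hF1, hDZR.2.2.1, MIR_pow hDZR] at h0
  have h1 : P ^ m * (((m + 1 : ℕ) : MvPolynomial σ Mer) * dz P * F + P * dz F) = 0 := by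
    rw [← h0]
    ring
  have h2 := (mul_eq_zero.1 h1).resolve_left (pow_ne_zero m hP.ne_zero)
  have h3 : P ∣ ((m + 1 : ℕ) : MvPolynomial σ Mer) * dz P * F :=
    ⟨-dz F, by linear_combination h2⟩
  have hu : IsUnit ((m + 1 : ℕ) : MvPolynomial σ Mer) := by
    have h4 := (IsUnit.mk0 ((m + 1 : ℕ) : ℂ) (Nat.cast_ne_zero.2 (Nat.succ_ne_zero m))).map
      ((C : Mer →+* MvPolynomial σ Mer).comp (algebraMap ℂ Mer))
    rwa [map_natCast] at h4
  have h5 : P ∣ dz P := by
    rcases hprime.dvd_or_dvd h3 with h | h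
    · exact (hu.dvd_mul_left).1 h
    · exact absurd h hF2
  obtain ⟨c, G', h6⟩ := (hDVD σ P hP.ne_zero).1 h5
  exact hMov c G' h6

end Pool.MPL
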