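import Pool.Agent.Work.MP_f82ddf_U.Interface

set_option autoImplicit false

open Pool.Agent.Work.MP_f82ddf_nt.DQ

namespace Pool.MPL

open MvPolynomial
open Pool.Agent.Work.MP_f82ddf_M5 (lineAt resAt chow at2 comb Data)
open Pool.ThmM (NonProp HypData IsRat)
open Pool.ThmM0 (Per)
open Pool.ThmM.Chow (ppt Phi Mov)

theorem MVP_alg (t : Mer) (h : IsAlgebraic ℂ t) : ∃ z : ℂ, t = algebraMap ℂ Mer z := by
  have hint : IsIntegral ℂ t := h.isIntegral
  have : Algebra.IsAlgebraic ℂ (IntermediateField.adjoin ℂ {t}) :=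
    IntermediateField.isAlgebraic_adjoin_simple hint
  obtain ⟨z, hz⟩ := IsAlgClosed.algebraMap_bijective_of_isIntegral
    (k := ℂ) (K := IntermediateField.adjoin ℂ {t}) |>.2
      ⟨t, IntermediateField.mem_adjoin_simple_self ℂ t⟩
  exact ⟨z, by
    have := congrArg Subtype.val hz
    exact this.symm⟩

theorem p_MVP (h5 : Pool.Agent.Work.MP_f82ddf_M5.Stmt_P5) : Stmt_MVP := by
  intro N n d Q A hD x hx c G he
  obtain ⟨i, j, hi, hj⟩ := hx
  have ht : Transcendental ℂ (x j / x i) := by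
    intro hal
    obtain ⟨z, hz⟩ := MVP_alg _ hal
    exact hj z (by rw [← hz, div_mul_cancel₀ _ hi])
  have h1 := h5 N n d d (n + 1) Q A hD Mer x c G 1 i 1 (fun _ => j) hi
    (by rw [one_pow, mul_one]; exact he)
    ((algebraicIndependent_unique_type_iff (ι := Fin 1)).2 ht)
  omega

end Pool.MPL
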