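import Pool.Agent.Work.MP_f82ddf_U.Interface

set_option autoImplicit false

/-! # Block PRG (helper58): `H (β + s γ)` is prime (edit of MP_f82ddf_M5/T_PRI.lean) -/

open Pool.Agent.Work.MP_f82ddf_nt.DQ

namespace Pool.MPL

open MvPolynomial

variable {σ R : Type} [CommRing R]

/-- the endomorphism `X (inr i) ↦ X (inr i) + e s X (inl i)` -/
noncomputable def PRG_S (e : R) :
    Polynomial (MvPolynomial (σ ⊕ σ) R) →+* Polynomial (MvPolynomial (σ ⊕ σ) R) :=
  Polynomial.eval₂RingHom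
    (eval₂Hom ((Polynomial.C : MvPolynomial (σ ⊕ σ) R →+* _).comp C)
      (Sum.elim (fun t => Polynomial.C (X (Sum.inl t)))
        (fun i => Polynomial.C (C e * X (Sum.inl i)) * Polynomial.X
          + Polynomial.C (X (Sum.inr i)))))
    Polynomial.X

theorem PRG_S_X (e : R) : PRG_S (σ := σ) e Polynomial.X = Polynomial.X := by
  unfold PRG_S
  rw [Polynomial.coe_eval₂RingHom, Polynomial.eval₂_X]

theorem PRG_S_CC (e : R) (r : R) :
    PRG_S (σ := σ) e (Polynomial.C (C r)) = Polynomial.C (C r) := by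
  unfold PRG_S
  rw [Polynomial.coe_eval₂RingHom, Polynomial.eval₂_C, eval₂Hom_C]
  rfl

theorem PRG_S_inl (e : R) (t : σ) :
    PRG_S e (Polynomial.C (X (Sum.inl t))) = Polynomial.C (X (Sum.inl t)) := by
  unfold PRG_S
  rw [Polynomial.coe_eval₂RingHom, Polynomial.eval₂_C, eval₂Hom_X']
  rfl

theorem PRG_S_inr (e : R) (i : σ) :
    PRG_S e (Polynomial.C (X (Sum.inr i))) = Polynomial.C (C e * X (Sum.inl i)) * Polynomial.X
      + Polynomial.C (X (Sum.inr i)) := by
  unfold PRG_S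
  rw [Polynomial.coe_eval₂RingHom, Polynomial.eval₂_C, eval₂Hom_X']
  rfl

theorem PRG_S_comp (e e' : R) (h : e + e' = 0) :
    (PRG_S (σ := σ) e).comp (PRG_S e') = RingHom.id _ := by
  apply Polynomial.ringHom_ext'
  · apply MvPolynomial.ringHom_ext
    · intro r
      have : PRG_S e (PRG_S e' (Polynomial.C (C r : MvPolynomial (σ ⊕ σ) R))) = Polynomial.C (C r) := by
        rw [PRG_S_CC, PRG_S_CC]
      exact this
    · intro t
      rcases t with t | i
      · have : PRG_S e (PRG_S e' (Polynomial.C (X (Sum.inl t) : MvPolynomial (σ ⊕ σ) R))) =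
            Polynomial.C (X (Sum.inl t)) := by
          rw [PRG_S_inl, PRG_S_inl]
        exact this
      · have : PRG_S e (PRG_S e' (Polynomial.C (X (Sum.inr i) : MvPolynomial (σ ⊕ σ) R))) =
            Polynomial.C (X (Sum.inr i)) := by
          rw [PRG_S_inr, map_add, map_mul, Polynomial.C_mul, map_mul, PRG_S_CC, PRG_S_inl, PRG_S_X,
            PRG_S_inr, ← add_assoc, Polynomial.C_mul, ← add_mul, ← add_mul, ← Polynomial.C_add, ← C_add,
            add_comm e', h, C_0, Polynomial.C_0, zero_mul, zero_mul, zero_add]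
        exact this
  · have : PRG_S (σ := σ) e (PRG_S e' Polynomial.X) = Polynomial.X := by
      rw [PRG_S_X, PRG_S_X]
    exact this

/-- the automorphism -/
noncomputable def PRG_Seq :
    Polynomial (MvPolynomial (σ ⊕ σ) R) ≃+* Polynomial (MvPolynomial (σ ⊕ σ) R) :=
  RingEquiv.ofRingHom (PRG_S 1) (PRG_S (-1))
    (PRG_S_comp _ _ (add_neg_cancel 1))
    (PRG_S_comp _ _ (neg_add_cancel 1))

theorem PRG_Seq_apply (z : Polynomial (MvPolynomial (σ ⊕ σ) R)) : PRG_Seq z = PRG_S 1 z := rfl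

theorem PRG_line_eq (F : MvPolynomial σ R) :
    lineG F = PRG_S 1 (Polynomial.C (rename Sum.inr F)) := by
  have h : (eval₂Hom ((Polynomial.C : MvPolynomial (σ ⊕ σ) R →+* _).comp C)
      (fun i : σ => Polynomial.C (X (Sum.inl i)) * Polynomial.X +
        Polynomial.C (X (Sum.inr i)))) =
      ((PRG_S 1).comp (Polynomial.C : MvPolynomial (σ ⊕ σ) R →+* _)).comp
      (rename Sum.inr : MvPolynomial σ R →ₐ[R] MvPolynomial (σ ⊕ σ) R).toRingHom := by
    apply MvPolynomial.ringHom_ext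
    · intro r
      rw [eval₂Hom_C]
      have : PRG_S 1 (Polynomial.C (rename Sum.inr (C r : MvPolynomial σ R))) =
          Polynomial.C (C r : MvPolynomial (σ ⊕ σ) R) := by
        rw [rename_C, PRG_S_CC]
      exact this.symm
    · intro i
      rw [eval₂Hom_X']
      have : PRG_S 1 (Polynomial.C (rename Sum.inr (X i : MvPolynomial σ R))) =
          Polynomial.C (X (Sum.inl i) : MvPolynomial (σ ⊕ σ) R) * Polynomial.X
      + Polynomial.C (X (Sum.inr i)) := by
        rw [rename_X, PRG_S_inr, C_1, one_mul]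
      exact this.symm
  exact RingHom.congr_fun h F

theorem PRG_prime_inr (Q : MvPolynomial σ R) (hQ : Prime Q) :
    Prime (rename Sum.inr Q : MvPolynomial (σ ⊕ σ) R) := by
  obtain ⟨E, hE⟩ : ∃ E : σ ≃ Set.range (Sum.inr : σ → σ ⊕ σ),
      ∀ i, ((E i : Set.range (Sum.inr : σ → σ ⊕ σ)) : σ ⊕ σ) = Sum.inr i :=
    ⟨Equiv.ofInjective _ Sum.inr_injective, fun _ => rfl⟩
  have h1 : Prime (renameEquiv R E Q) :=
    (MulEquiv.prime_iff (renameEquiv R E).toMulEquiv).mpr hQ
  have h2 := (prime_rename_iff (R := R) (Set.range (Sum.inr : σ → σ ⊕ σ))).mpr h1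
  have h3 : rename ((↑) : Set.range (Sum.inr : σ → σ ⊕ σ) → σ ⊕ σ)
      (renameEquiv R E Q) = rename Sum.inr Q := by
    have hf : (((↑) : Set.range (Sum.inr : σ → σ ⊕ σ) → σ ⊕ σ) ∘ E) = Sum.inr :=
      funext hE
    rw [renameEquiv_apply, rename_rename, hf]
  rw [h3] at h2
  exact h2

theorem p_PRG : Stmt_PRG := by
  intro σ R _ _ H hH
  rw [PRG_line_eq, ← PRG_Seq_apply]
  apply (MulEquiv.prime_iff (PRG_Seq (σ := σ) (R := R)).toMulEquiv).mpr
  exact Polynomial.prime_C_iff.mpr (PRG_prime_inr H hH)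

end Pool.MPL
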