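import Pool.Agent.Work.MP_f82ddf_U.Interface2

set_option autoImplicit false

namespace Pool.MPL

theorem p_RKT : Stmt_RKT := by
  intro Ω F _ _ τ n
  constructor
  · intro T hT y hy
    classical
    let L : (Fin (n + 1) → Ω) →ₗ[Ω] (T → Ω) :=
      { toFun := fun v u => ∑ i, v i * (u : Fin (n + 1) → Ω) i
        map_add' := by
          intro v w
          funext u
          simp only [Pi.add_apply, add_mul, Finset.sum_add_distrib]
        map_smul' := by
          intro a v
          funext u
          simp only [Pi.smul_apply, smul_eq_mul, RingHom.id_apply, Finset.mul_sum, mul_assoc] }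
    have hL : LinearMap.ker L = ⊥ := by
      rw [LinearMap.ker_eq_bot']
      intro v hv
      apply hT v
      intro u hu
      exact congrFun hv ⟨u, hu⟩
    obtain ⟨G, hG⟩ := LinearMap.exists_leftInverse_of_injective L hL
    have key : ∀ i j : Fin (n + 1),
        ∑ u : T, (u : Fin (n + 1) → Ω) i * G (Pi.single u 1) j = if i = j then 1 else 0 := by
      intro i j
      have h1 : G (L (Pi.single i 1)) = Pi.single i 1 := by
        have := LinearMap.congr_fun hG (Pi.single i 1)
        simpa using this
      have h2 : L (Pi.single i 1) = ∑ u : T, (u : Fin (n + 1) → Ω) i • (Pi.single u (1 : Ω) : T → Ω) := by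
        funext w
        simp only [Finset.sum_apply, Pi.smul_apply, smul_eq_mul]
        rw [Finset.sum_eq_single w]
        · simp only [Pi.single_eq_same, mul_one]
          change ∑ k, (Pi.single i (1 : Ω) : Fin (n + 1) → Ω) k * (w : Fin (n + 1) → Ω) k = _
          rw [Finset.sum_eq_single i]
          · simp
          · intro b _ hb
            simp [Pi.single_eq_of_ne hb]
          · intro h
            exact absurd (Finset.mem_univ i) h
        · intro b _ hb
          rw [Pi.single_eq_of_ne (Ne.symm hb), mul_zero]
        · intro h
          exact absurd (Finset.mem_univ w) h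
      rw [h2] at h1
      have h3 := congrFun h1 j
      rw [map_sum, Finset.sum_apply] at h3
      simp only [map_smul, Pi.smul_apply, smul_eq_mul] at h3
      rw [h3]
      rw [Pi.single_apply]
      by_cases h : i = j
      · simp [h]
      · rw [if_neg h, if_neg (Ne.symm h)]
    funext j
    have h4 : y j = ∑ i, (if i = j then (1 : F) else 0) * y i := by
      simp
    have h5 : ∀ i : Fin (n + 1), (if i = j then (1 : F) else 0) =
        ∑ u : T, τ ((u : Fin (n + 1) → Ω) i) * τ (G (Pi.single u 1) j) := by
      intro i
      have := congrArg τ (key i j)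
      rw [map_sum] at this
      simp only [map_mul] at this
      rw [this]
      split_ifs
      · exact (map_one τ).symm
      · exact (map_zero τ).symm
    rw [h4]
    simp only [h5, Finset.sum_mul]
    rw [Finset.sum_comm]
    simp only [Pi.zero_apply]
    apply Finset.sum_eq_zero
    intro u _
    have h6 := hy u u.2
    calc ∑ i, τ ((u : Fin (n + 1) → Ω) i) * τ (G (Pi.single u 1) j) * y i
        = τ (G (Pi.single u 1) j) * ∑ i, τ ((u : Fin (n + 1) → Ω) i) * y i := by
          rw [Finset.mul_sum]
          exact Finset.sum_congr rfl fun i _ => by ring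
      _ = 0 := by rw [h6, mul_zero]
  · intro u v huv a b hab
    by_contra hne
    have hab' : ∀ i, a * τ (u i) = b * τ (v i) := fun i => congrFun hab i
    have hmin : ∀ i j, u i * v j = u j * v i := by
      intro i j
      apply τ.injective
      rw [map_mul, map_mul]
      have e1 : a * (τ (u i) * τ (v j) - τ (u j) * τ (v i)) = 0 := by
        have := hab' i
        have h' := hab' j
        linear_combination τ (v j) * this - τ (v i) * h'
      have e2 : b * (τ (u i) * τ (v j) - τ (u j) * τ (v i)) = 0 := by
        have := hab' i
        have h' := hab' j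
        linear_combination -τ (u i) * h' + τ (u j) * this
      rcases mul_eq_zero.mp e1 with h | h
      · rcases mul_eq_zero.mp e2 with h' | h'
        · exact absurd ⟨h, h'⟩ hne
        · exact sub_eq_zero.mp h'
      · exact sub_eq_zero.mp h
    have h0 : ∀ j, v j = 0 ∧ u j = 0 := by
      intro j
      apply huv
      funext i
      simp only [Pi.smul_apply, smul_eq_mul]
      rw [mul_comm (v j), hmin i j]
    have h1 : (1 : Ω) = 0 ∧ (0 : Ω) = 0 := by
      apply huv
      funext i
      simp only [Pi.smul_apply, smul_eq_mul, (h0 i).2, mul_zero, zero_mul]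
    exact one_ne_zero h1.1

end Pool.MPL
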