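import Pool.Agent.Work.MP_f82ddf_U.Interface

set_option autoImplicit false

/-! # Block TR1: a linear factor over the field of one root -/

open Pool.Agent.Work.MP_f82ddf_nt.DQ

namespace Pool.MPL

open MvPolynomial
open Pool.Agent.Work.MP_f82ddf_M5 (lineAt resAt chow at2 comb Data)
open Pool.ThmM.Chow (Phi)

/-! ## A nonzero linear form is prime -/

theorem TR1_lin {K : Type} [Field K] {m : ℕ} (a : Fin m → K) (i₀ : Fin m) (h : a i₀ ≠ 0) :
    Prime (∑ i, X i * C (a i) : MvPolynomial (Fin m) K) := by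
  classical
  rw [← irreducible_iff_prime]
  have hcoeff : coeff (Finsupp.single i₀ 1) (∑ i, X i * C (a i) : MvPolynomial (Fin m) K)
      = a i₀ := by
    rw [coeff_sum, Finset.sum_eq_single i₀]
    · rw [mul_comm, coeff_C_mul, coeff_X, if_pos rfl, mul_one]
    · intro j _ hj
      rw [mul_comm, coeff_C_mul, coeff_X, if_neg, mul_zero]
      intro h1
      exact hj (Finsupp.single_left_injective one_ne_zero h1)
    · intro hi
      exact absurd (Finset.mem_univ _) hi
  have hne : (∑ i, X i * C (a i) : MvPolynomial (Fin m) K) ≠ 0 := by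
    intro h0
    rw [h0, coeff_zero] at hcoeff
    exact h hcoeff.symm
  have hhom : (∑ i, X i * C (a i) : MvPolynomial (Fin m) K).IsHomogeneous 1 :=
    IsHomogeneous.sum _ _ _ fun i _ => by
      simpa using (isHomogeneous_X K i).mul (isHomogeneous_C (Fin m) (a i))
  refine irreducible_of_totalDegree_eq_one (hhom.totalDegree hne) ?_
  intro x hx
  rw [isUnit_iff_ne_zero]
  rintro rfl
  have h1 := hx (Finsupp.single i₀ 1)
  rw [hcoeff, zero_dvd_iff] at h1
  exact h h1

/-! ## The homomorphisms -/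

section maps

variable {N : ℕ} (n : ℕ)

/-- the coefficient ring `ℂ[b]` -/
abbrev TR1_b (N : ℕ) : Type := MvPolynomial (Fin 2 × Fin N) ℂ

/-- `ℂ[b][s][X] → ℂ[X][b][s]` -/
noncomputable def TR1_inv : MvPolynomial (Fin (n + 1)) (Polynomial (TR1_b N)) →+*
    Polynomial (MvPolynomial (Fin 2 × Fin N) (RX n)) :=
  eval₂Hom (Polynomial.mapRingHom (inc n (Fin 2 × Fin N)))
    (fun i => Polynomial.C (C (X i)))

/-- `ℂ[X][b][s] → ℂ[b][s][X]` -/
noncomputable def TR1_th : Polynomial (MvPolynomial (Fin 2 × Fin N) (RX n)) →+*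
    MvPolynomial (Fin (n + 1)) (Polynomial (TR1_b N)) :=
  Polynomial.eval₂RingHom
    (eval₂Hom (MvPolynomial.map (Polynomial.C.comp (C : ℂ →+* TR1_b N)))
      (fun p => C (Polynomial.C (X p)))) (C Polynomial.X)

theorem TR1_inv_C (p : Polynomial (TR1_b N)) :
    TR1_inv n (C p) = p.map (inc n (Fin 2 × Fin N)) := by
  simp [TR1_inv]

theorem TR1_inv_X (i : Fin (n + 1)) :
    TR1_inv (N := N) n (X i) = Polynomial.C (C (X i)) := by
  simp [TR1_inv]

theorem TR1_inv_th : (TR1_inv n).comp (TR1_th (N := N) n) = RingHom.id _ := by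
  apply Polynomial.ringHom_ext
  · intro a
    have h : ((TR1_inv n).comp (TR1_th (N := N) n)).comp Polynomial.C =
        (Polynomial.C : MvPolynomial (Fin 2 × Fin N) (RX n) →+* _) := by
      apply MvPolynomial.ringHom_ext
      · intro r
        have h2 : (((TR1_inv n).comp (TR1_th (N := N) n)).comp Polynomial.C).comp C =
            (Polynomial.C : MvPolynomial (Fin 2 × Fin N) (RX n) →+* _).comp
              (C : RX n →+* MvPolynomial (Fin 2 × Fin N) (RX n)) := by
          apply MvPolynomial.ringHom_ext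
          · intro z
            simp [TR1_th, TR1_inv, inc]
          · intro i
            simp [TR1_th, TR1_inv]
        exact congrFun (congrArg DFunLike.coe h2) r
      · intro p
        simp [TR1_th, TR1_inv, inc]
    exact congrFun (congrArg DFunLike.coe h) a
  · simp [TR1_th, TR1_inv]

theorem TR1_th_inv : (TR1_th n).comp (TR1_inv (N := N) n) = RingHom.id _ := by
  apply MvPolynomial.ringHom_ext
  · intro p
    have h : ((TR1_th n).comp (TR1_inv (N := N) n)).comp C =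
        (C : Polynomial (TR1_b N) →+* MvPolynomial (Fin (n + 1)) (Polynomial (TR1_b N))) := by
      apply Polynomial.ringHom_ext
      · intro a
        have h2 : (((TR1_th n).comp (TR1_inv (N := N) n)).comp C).comp Polynomial.C =
            (C : Polynomial (TR1_b N) →+* MvPolynomial (Fin (n + 1)) (Polynomial (TR1_b N))).comp
              Polynomial.C := by
          apply MvPolynomial.ringHom_ext
          · intro z
            simp [TR1_th, TR1_inv, inc]
          · intro i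
            simp [TR1_th, TR1_inv, inc]
        exact congrFun (congrArg DFunLike.coe h2) a
      · simp [TR1_th, TR1_inv]
    exact congrFun (congrArg DFunLike.coe h) p
  · intro i
    simp [TR1_th, TR1_inv]

theorem TR1_inv_th' (a : Polynomial (MvPolynomial (Fin 2 × Fin N) (RX n))) :
    TR1_inv n (TR1_th n a) = a := congrFun (congrArg DFunLike.coe (TR1_inv_th (N := N) n)) a

theorem TR1_th_inv' (a : MvPolynomial (Fin (n + 1)) (Polynomial (TR1_b N))) :
    TR1_th n (TR1_inv n a) = a := congrFun (congrArg DFunLike.coe (TR1_th_inv (N := N) n)) a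

theorem TR1_th_fR (Q : MvPolynomial (Fin N) ℂ) : TR1_th n (fR n Q) = C (f0 Q) := by
  rw [← TR1_th_inv' n (C (f0 Q)), TR1_inv_C]
  rfl

theorem TR1_th_gR (A : Fin (n + 1) → MvPolynomial (Fin N) ℂ) :
    TR1_th n (gR A) = ∑ i, X i * C (f0 (A i)) := by
  rw [gR, map_sum]
  refine Finset.sum_congr rfl fun i _ => ?_
  rw [map_mul, TR1_th_fR, ← TR1_inv_X (N := N), TR1_th_inv']

theorem TR1_th_inc (q : TR1_b N) :
    TR1_th n (Polynomial.C (inc n (Fin 2 × Fin N) q)) = C (Polynomial.C q) := by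
  rw [← TR1_th_inv' n (C (Polynomial.C q)), TR1_inv_C, Polynomial.map_C]

end maps

/-! ## Denominators -/

/-- denominators in `ℂ[b]` of the elements of the field -/
theorem TR1_den (hR : Pool.Agent.Work.MP_f82ddf_M5.Stmt_RES) {N : ℕ}
    (f : Polynomial (TR1_b N)) (hf : Prime f) (hd : 0 < f.natDegree) {K : Type} [Field K]
    (ψ : Polynomial (TR1_b N) →+* K) (hker : ∀ a, ψ a = 0 ↔ f ∣ a)
    (hsurj : ∀ z : K, ∃ u v, ψ v ≠ 0 ∧ z = ψ u / ψ v) (z : K) :
    ∃ (q : TR1_b N) (p : Polynomial (TR1_b N)), q ≠ 0 ∧ ψ (Polynomial.C q) * z = ψ p := by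
  obtain ⟨u, v, hv, rfl⟩ := hsurj z
  have hfv : ¬ f ∣ v := fun h => hv ((hker v).2 h)
  have hne := hR (TR1_b N) f v f.natDegree v.natDegree hf rfl hd le_rfl hfv
  obtain ⟨p, q, -, -, h⟩ := Polynomial.exists_mul_add_mul_eq_C_resultant f v (m := f.natDegree)
    (n := v.natDegree) le_rfl le_rfl (Or.inl hd.ne')
  refine ⟨_, u * q, hne, ?_⟩
  rw [← h, map_add, map_mul, map_mul, (hker f).2 dvd_rfl, zero_mul, zero_add, map_mul]
  field_simp

/-- denominators of polynomials over the field -/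
theorem TR1_denM {N m : ℕ} {K : Type} [Field K] (ψ : Polynomial (TR1_b N) →+* K)
    (hden : ∀ z : K, ∃ (q : TR1_b N) (p : Polynomial (TR1_b N)), q ≠ 0 ∧
      ψ (Polynomial.C q) * z = ψ p) (M : MvPolynomial (Fin m) K) :
    ∃ (q : TR1_b N) (M₁ : MvPolynomial (Fin m) (Polynomial (TR1_b N))), q ≠ 0 ∧
      C (ψ (Polynomial.C q)) * M = map ψ M₁ := by
  induction M using MvPolynomial.induction_on with
  | C z =>
    obtain ⟨q, p, hq, h⟩ := hden z
    exact ⟨q, C p, hq, by rw [map_C, ← h, C_mul]⟩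
  | add a b ha hb =>
    obtain ⟨q₁, M₁, hq₁, h₁⟩ := ha
    obtain ⟨q₂, M₂, hq₂, h₂⟩ := hb
    refine ⟨q₁ * q₂, C (Polynomial.C q₂) * M₁ + C (Polynomial.C q₁) * M₂,
      mul_ne_zero hq₁ hq₂, ?_⟩
    have e1 : map ψ (C (Polynomial.C q₂) * M₁) = C (ψ (Polynomial.C q₂)) * map ψ M₁ := by
      rw [map_mul, map_C]
    have e2 : map ψ (C (Polynomial.C q₁) * M₂) = C (ψ (Polynomial.C q₁)) * map ψ M₂ := by
      rw [map_mul, map_C]
    have e3 : ψ (Polynomial.C (q₁ * q₂)) = ψ (Polynomial.C q₁) * ψ (Polynomial.C q₂) := by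
      rw [Polynomial.C_mul, map_mul]
    rw [map_add, e1, e2, e3, C_mul, ← h₁, ← h₂]
    ring
  | mul_X a i ha =>
    obtain ⟨q, M₁, hq, h⟩ := ha
    refine ⟨q, M₁ * X i, hq, ?_⟩
    rw [map_mul, map_X, ← h]
    ring

/-- an irreducible factor whose image is divisible by a given prime -/
theorem TR1_fac {R S : Type} [CommRing R] [IsDomain R] [UniqueFactorizationMonoid R]
    [CommRing S] [IsDomain S] (F : R →+* S) {L : S} (hL : Prime L) (a : R) (ha : a ≠ 0)
    (h : L ∣ F a) : ∃ H : R, Irreducible H ∧ H ∣ a ∧ L ∣ F H := by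
  obtain ⟨s, hs, u, hu⟩ := UniqueFactorizationMonoid.exists_prime_factors a ha
  have h1 : L ∣ F s.prod := by
    rw [← hu, map_mul] at h
    rcases hL.dvd_or_dvd h with h | h
    · exact h
    · exact absurd (isUnit_of_dvd_unit h (u.isUnit.map F)) hL.not_isUnit
  rw [map_multiset_prod] at h1
  obtain ⟨H, hH, hLH⟩ := hL.exists_mem_multiset_map_dvd h1
  exact ⟨H, (hs H hH).irreducible, dvd_trans (Multiset.dvd_prod hH) ⟨u, hu.symm⟩, hLH⟩

/-- the field of one root -/
theorem TR1_field {R : Type} [CommRing R] (f : R) (hf : Prime f) :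
    ∃ (K : Type) (_ : Field K) (ψ : R →+* K), (∀ a, ψ a = 0 ↔ f ∣ a) ∧
      ∀ z : K, ∃ u v, ψ v ≠ 0 ∧ z = ψ u / ψ v := by
  have hI : (Ideal.span {f}).IsPrime := (Ideal.span_singleton_prime hf.ne_zero).2 hf
  have hD : IsDomain (R ⧸ Ideal.span {f}) := Ideal.Quotient.isDomain _
  refine ⟨FractionRing (R ⧸ Ideal.span {f}), inferInstance,
    (algebraMap (R ⧸ Ideal.span {f}) (FractionRing (R ⧸ Ideal.span {f}))).comp
      (Ideal.Quotient.mk (Ideal.span {f})), ?_, ?_⟩
  · intro a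
    rw [RingHom.comp_apply, map_eq_zero_iff _ (IsFractionRing.injective (R ⧸ Ideal.span {f})
      (FractionRing (R ⧸ Ideal.span {f}))),
      Ideal.Quotient.eq_zero_iff_mem, Ideal.mem_span_singleton]
  · intro z
    obtain ⟨u, v, hv, h⟩ := IsFractionRing.div_surjective (A := R ⧸ Ideal.span {f}) z
    obtain ⟨u', rfl⟩ := Ideal.Quotient.mk_surjective u
    obtain ⟨v', rfl⟩ := Ideal.Quotient.mk_surjective v
    refine ⟨u', v', ?_, h.symm⟩
    rw [RingHom.comp_apply, map_ne_zero_iff _ (IsFractionRing.injective (R ⧸ Ideal.span {f})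
      (FractionRing (R ⧸ Ideal.span {f})))]
    exact nonZeroDivisors.ne_zero hv

theorem TR1_sub {R S : Type} [CommRing R] [CommRing S] (F : R →+* S) (a b : R) (h : F a = F b) :
    F (a - b) = 0 := by rw [map_sub, h, sub_self]

theorem p_TR1 : Stmt_FPR → Stmt_ULN → Pool.Agent.Work.MP_f82ddf_M5.Stmt_RES → Stmt_TR1 := by
  classical
  intro hFPR hULN hRES N n d Q A hD
  obtain ⟨hd, hprime, hdeg, -, hdvd⟩ := hFPR N d Q hD.irr hD.hom
  obtain ⟨hUF, ⟨hdf, hdg⟩, -, hUF0⟩ := hULN N n d Q A hD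
  obtain ⟨K, _, ψ, hker, hsurj⟩ := TR1_field (f0 Q) hprime
  have hden := TR1_den hRES (f0 Q) hprime (by omega) ψ hker hsurj
  -- the homomorphism
  set Ψ : Polynomial (MvPolynomial (Fin 2 × Fin N) (RX n)) →+* MvPolynomial (Fin (n + 1)) K :=
    (MvPolynomial.map ψ).comp (TR1_th n) with hΨ
  have hΨker : ∀ a, Ψ a = 0 → fR n Q ∣ a := by
    intro a ha
    have h1 : C (f0 Q) ∣ TR1_th n a := (C_dvd_iff_map_hom_eq_zero ψ (f0 Q) hker _).2 ha
    obtain ⟨b, hb⟩ := h1
    refine ⟨TR1_inv n b, ?_⟩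
    rw [← TR1_inv_th' n a, hb, map_mul, TR1_inv_C]
    rfl
  have hΨf : Ψ (fR n Q) = 0 := by
    rw [hΨ, RingHom.comp_apply, TR1_th_fR, map_C, (hker _).2 dvd_rfl, C_0]
  have hΨg : Ψ (gR A) = ∑ i, X i * C (ψ (f0 (A i))) := by
    rw [hΨ, RingHom.comp_apply, TR1_th_gR, map_sum]
    refine Finset.sum_congr rfl fun i _ => ?_
    rw [map_mul, map_X, map_C]
  have hA0 : ψ (f0 (A 0)) ≠ 0 := by
    intro h0
    have h1 : Q ∣ A 0 := hdvd _ ((hker _).1 h0)
    have h2 := hD.nd (Pi.single 0 1) (by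
      unfold comb
      rw [Finset.sum_eq_single 0]
      · rw [Pi.single_eq_same, C_1, one_mul, MvPolynomial.map_id]
        exact h1
      · intro j _ hj
        rw [Pi.single_eq_of_ne hj, C_0, zero_mul]
      · intro h
        exact absurd (Finset.mem_univ _) h)
    have h3 := congrFun h2 0
    simp at h3
  have hL : Prime (Ψ (gR A)) := by
    rw [hΨg]
    exact TR1_lin _ 0 hA0
  -- the resultant is divisible by `L`
  obtain ⟨p, q, -, -, hpq⟩ := Polynomial.exists_mul_add_mul_eq_C_resultant (fR n Q) (gR A)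
    (m := d) (n := d) hdf hdg (Or.inl (by omega))
  rw [← hUF] at hpq
  have hdiv : Ψ (gR A) ∣ (Ψ.comp Polynomial.C) (UF d Q A) := by
    refine ⟨Ψ q, ?_⟩
    rw [RingHom.comp_apply, ← hpq, map_add, map_mul, map_mul, hΨf, zero_mul, zero_add]
  obtain ⟨H, hHirr, hHd, M', hM'⟩ := TR1_fac (Ψ.comp Polynomial.C) hL (UF d Q A) hUF0 hdiv
  obtain ⟨q₁, M₁, hq₁, hM₁⟩ := TR1_denM ψ hden M'
  have hzero : Ψ (Polynomial.C (inc n (Fin 2 × Fin N) q₁ * H) - gR A * TR1_inv n M₁) = 0 := by
    have h1 : Ψ (Polynomial.C (inc n (Fin 2 × Fin N) q₁)) = C (ψ (Polynomial.C q₁)) := by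
      rw [hΨ, RingHom.comp_apply, TR1_th_inc, map_C]
    have h2 : Ψ (TR1_inv n M₁) = map ψ M₁ := by
      rw [hΨ, RingHom.comp_apply, TR1_th_inv']
    rw [RingHom.comp_apply] at hM'
    refine TR1_sub (R := Polynomial (MvPolynomial (Fin 2 × Fin N) (RX n)))
      (S := MvPolynomial (Fin (n + 1)) K) Ψ _ _ ?_
    rw [Polynomial.C_mul, map_mul, h1, hM', map_mul, h2, ← hM₁]
    ring
  obtain ⟨P, hP⟩ := hΨker _ hzero
  refine ⟨H, q₁, TR1_inv n M₁, P, hHirr, hHd, hq₁, ?_⟩
  rw [← hP]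
  ring

end Pool.MPL
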