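import Pool.Agent.Work.MP_f82ddf_U.Interface2

set_option autoImplicit false

namespace Pool.MPL

open MvPolynomial
open Pool.Agent.Work.MP_f82ddf_M5 (lineAt resAt chow at2 comb Data)
open Pool.ThmM (NonProp HypData IsRat LastMonic)

/-- `aq α` as a ring isomorphism. -/
noncomputable def aqe (α : ℂ ≃+* ℂ) (N : ℕ) :
    MvPolynomial (Fin N) ℂ ≃+* MvPolynomial (Fin N) ℂ := MvPolynomial.mapEquiv (Fin N) α

theorem aqe_apply (α : ℂ ≃+* ℂ) {N : ℕ} (Q : MvPolynomial (Fin N) ℂ) : aqe α N Q = aq α Q := rfl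

theorem aq_symm (α : ℂ ≃+* ℂ) {N : ℕ} (Q : MvPolynomial (Fin N) ℂ) :
    aq α (aq α.symm Q) = Q := by
  unfold aq
  rw [MvPolynomial.map_map]
  have h : (α : ℂ →+* ℂ).comp (α.symm : ℂ →+* ℂ) = RingHom.id ℂ := by
    ext x
    simp
  rw [h, MvPolynomial.map_id]

theorem aq_irr (α : ℂ ≃+* ℂ) {N : ℕ} {Q : MvPolynomial (Fin N) ℂ} (h : Irreducible Q) :
    Irreducible (aq α Q) := by
  rw [← aqe_apply]
  exact (MulEquiv.irreducible_iff (aqe α N)).mpr h

theorem aq_dvd (α : ℂ ≃+* ℂ) {N : ℕ} {P Q : MvPolynomial (Fin N) ℂ} (h : P ∣ Q) :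
    aq α P ∣ aq α Q := map_dvd (map (α : ℂ →+* ℂ)) h

theorem aq_dvd_symm (α : ℂ ≃+* ℂ) {N : ℕ} {P Q : MvPolynomial (Fin N) ℂ}
    (h : aq α P ∣ Q) : P ∣ aq α.symm Q := by
  have h2 := aq_dvd α.symm h
  have h3 : aq α.symm (aq α P) = P := by
    have := aq_symm α.symm P
    simpa using this
  rwa [h3] at h2

theorem aq_hom (α : ℂ ≃+* ℂ) {N e : ℕ} {P : MvPolynomial (Fin N) ℂ} (h : P.IsHomogeneous e) :
    (aq α P).IsHomogeneous e := h.map _

theorem aq_eval (α : ℂ ≃+* ℂ) {N : ℕ} (P : MvPolynomial (Fin N) ℂ) (u : Fin N → ℂ) :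
    eval (ae α N u) (aq α P) = α (eval u P) := by
  unfold aq
  rw [eval_map]
  have h : α (eval u P) = (α : ℂ →+* ℂ) (eval u P) := rfl
  rw [h, ← MvPolynomial.coe_eval₂Hom]
  have h2 : (eval₂Hom (α : ℂ →+* ℂ) (ae α N u)) = (α : ℂ →+* ℂ).comp (eval u) := by
    ext i
    · simp
    · simp [ae]
  rw [h2]
  rfl

theorem ae_symm (α : ℂ ≃+* ℂ) (N : ℕ) (u : Fin N → ℂ) : ae α.symm N (ae α N u) = u := by
  funext i
  simp [ae]

theorem ae_symm2 (α : ℂ ≃+* ℂ) (N : ℕ) (u : Fin N → ℂ) : ae α N (ae α.symm N u) = u := by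
  funext i
  simp [ae]

theorem aq_comb (α : ℂ ≃+* ℂ) {N n : ℕ} (A : Fin (n + 1) → MvPolynomial (Fin N) ℂ)
    (y : Fin (n + 1) → ℂ) :
    comb (RingHom.id ℂ) (fun i => aq α (A i)) (fun i => α (y i)) =
      aq α (comb (RingHom.id ℂ) A y) := by
  unfold comb aq
  rw [map_sum]
  refine Finset.sum_congr rfl fun i _ => ?_
  simp only [MvPolynomial.map_id, map_mul, map_C]
  rfl

theorem p_TRP : Stmt_TRP := by
  intro α
  refine ⟨?_, ?_, ?_, ?_⟩
  · intro n w d Q A T lift h
    have key : ∀ u' ∈ T.map (ae α (n + 1)), ∃ u ∈ T, u' = ae α (n + 1) u ∧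
        ae α (w + 2) (lift (ae α.symm (n + 1) u')) = ae α (w + 2) (lift u) := by
      intro u' hu'
      rw [Finset.mem_map] at hu'
      obtain ⟨u, hu, rfl⟩ := hu'
      exact ⟨u, hu, rfl, by rw [ae_symm]⟩
    refine ⟨h.hw, h.hwr, h.hd, aq_irr α h.irr, aq_hom α h.homQ, ?_, fun i => aq_hom α (h.homA i),
      ?_, ?_, ?_⟩
    · obtain ⟨q, hq⟩ := h.mon
      refine ⟨fun j => aq α (q j), ?_⟩
      unfold aq
      rw [hq]
      simp only [map_add, map_pow, map_X, map_sum, map_mul, MvPolynomial.map_rename]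
    · intro u' hu'
      obtain ⟨u, hu, -, h2⟩ := key u' hu'
      rw [h2, aq_eval, h.zero u hu, map_zero]
    · intro u' hu'
      obtain ⟨u, hu, -, h2⟩ := key u' hu'
      have h3 : pderiv (Fin.last (w + 1)) (aq α Q) = aq α (pderiv (Fin.last (w + 1)) Q) := by
        unfold aq
        rw [MvPolynomial.pderiv_map]
      rw [h2, h3, aq_eval]
      intro h4
      exact h.smooth u hu ((map_eq_zero_iff α α.injective).mp h4)
    · intro u' hu'
      obtain ⟨u, hu, h1, h2⟩ := key u' hu'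
      obtain ⟨c, hc, h3⟩ := h.prop u hu
      refine ⟨α c, ?_, ?_⟩
      · intro h4
        exact hc ((map_eq_zero_iff α α.injective).mp h4)
      · intro i
        rw [h2, aq_eval, h3 i, map_mul, h1]
        rfl
  · intro n w b Q T lift h e f he hf hz
    have h1 : Q ∣ aq α.symm f := by
      refine h e (aq α.symm f) he (aq_hom α.symm hf) ?_
      intro u hu
      have h2 := hz (ae α (n + 1) u) (Finset.mem_map_of_mem _ hu)
      rw [ae_symm] at h2
      have h3 := aq_eval α.symm f (ae α (w + 2) (lift u))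
      rw [ae_symm, h2, map_zero] at h3
      exact h3
    have h4 := aq_dvd α h1
    rwa [aq_symm] at h4
  · intro N n d Q A h
    refine ⟨aq_irr α h.irr, aq_hom α h.hom, fun i => aq_hom α (h.homA i), ?_⟩
    intro y hy
    have h1 : comb (RingHom.id ℂ) (fun i => aq α (A i)) y =
        aq α (comb (RingHom.id ℂ) A (fun i => α.symm (y i))) := by
      rw [← aq_comb]
      congr 1
      funext i
      simp
    rw [h1] at hy
    have h2 := aq_dvd_symm α hy
    have h3 : aq α.symm (aq α (comb (RingHom.id ℂ) A (fun i => α.symm (y i)))) =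
        comb (RingHom.id ℂ) A (fun i => α.symm (y i)) := by
      have := aq_symm α.symm (comb (RingHom.id ℂ) A (fun i => α.symm (y i)))
      simpa using this
    rw [h3] at h2
    have h4 := h.nd _ h2
    funext i
    have h5 := congrFun h4 i
    have h6 : α (α.symm (y i)) = α 0 := by
      rw [show α.symm (y i) = 0 from h5]
    simpa using h6
  · intro n c T h T' hT' hc v hv
    have h1 := h (T'.map (ae α.symm (n + 1))) ?_ (by rwa [Finset.card_map])
      (fun i => α.symm (v i)) ?_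
    · funext i
      have h5 := congrFun h1 i
      have h6 : α (α.symm (v i)) = α 0 := by
        rw [show α.symm (v i) = 0 from h5]
      simpa using h6
    · intro u hu
      rw [Finset.mem_map] at hu
      obtain ⟨u', hu', rfl⟩ := hu
      have h2 := hT' hu'
      rw [Finset.mem_map] at h2
      obtain ⟨u, hu, rfl⟩ := h2
      rw [ae_symm]
      exact hu
    · intro u hu
      rw [Finset.mem_map] at hu
      obtain ⟨u', hu', rfl⟩ := hu
      have h2 := congrArg α.symm (hv u' hu')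
      rw [map_sum, map_zero] at h2
      rw [← h2]
      refine Finset.sum_congr rfl fun i _ => ?_
      rw [map_mul]
      rfl

end Pool.MPL
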