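import Pool.Agent.Work.MP_f82ddf_U.B_AUT
import Pool.Agent.Work.MP_f82ddf_U.B_DSC
import Pool.Agent.Work.MP_f82ddf_U.B_DSE
import Pool.Agent.Work.MP_f82ddf_U.B_FPR
import Pool.Agent.Work.MP_f82ddf_U.B_FXF
import Pool.Agent.Work.MP_f82ddf_U.B_MFC
import Pool.Agent.Work.MP_f82ddf_U.B_MIR
import Pool.Agent.Work.MP_f82ddf_U.B_MVP
import Pool.Agent.Work.MP_f82ddf_U.B_PRG
import Pool.Agent.Work.MP_f82ddf_U.B_RKT
import Pool.Agent.Work.MP_f82ddf_U.B_SLO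
import Pool.Agent.Work.MP_f82ddf_U.B_TR1
import Pool.Agent.Work.MP_f82ddf_U.B_TR2
import Pool.Agent.Work.MP_f82ddf_U.B_TRP
import Pool.Agent.Work.MP_f82ddf_U.B_UIR
import Pool.Agent.Work.MP_f82ddf_U.B_ULN
import Pool.Agent.Work.MP_f82ddf_U.B_USM
import Pool.Agent.Work.MP_f82ddf_M5.All
import Pool.Agent.Work.MP_f82ddf_M.AllC

/-!
# THEOREM U: the blocks used by THEOREM V, without hypotheses
-/

set_option autoImplicit false

namespace Pool.MPL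

open Pool.Agent.Work.MP_f82ddf_M5 (stmt_FUN stmt_DEG stmt_RES stmt_PRI all_LINE all_PTD all_IDE
  all_P5)

theorem all_AUT : Stmt_AUT := p_AUT
theorem all_FXF : Stmt_FXF := p_FXF all_AUT
theorem all_DSE : Stmt_DSE := p_DSE all_FXF
theorem all_RKT : Stmt_RKT := p_RKT
theorem all_SLO : Stmt_SLO := p_SLO
theorem all_TRP : Stmt_TRP := p_TRP
theorem all_PRG : Stmt_PRG := p_PRG
theorem all_DSC : Stmt_DSC := p_DSC all_PRG stmt_RES
theorem all_FPR : Stmt_FPR := p_FPR stmt_PRI stmt_DEG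
theorem all_MFC : Stmt_MFC := p_MFC Pool.ThmM.Chow.q_FAC
theorem all_MIR : Stmt_MIR := p_MIR Pool.ThmM.all_DVD Pool.ThmM.all_DZR
theorem all_MVP : Stmt_MVP := p_MVP all_P5
theorem all_ULN : Stmt_ULN := p_ULN stmt_FUN stmt_DEG all_LINE Pool.ThmM.Chow.q_FCH
theorem all_TR1 : Stmt_TR1 := p_TR1 all_FPR all_ULN stmt_RES
theorem all_TR2 : Stmt_TR2 := p_TR2 all_FPR all_ULN all_TR1
theorem all_USM : Stmt_USM := p_USM stmt_FUN all_PTD all_IDE
theorem all_UIR : Stmt_UIR := p_UIR all_ULN all_TR2 all_USM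

end Pool.MPL
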