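import Pool.Agent.Work.MP_f82ddf_U.Interface2

set_option autoImplicit false

/-! # THEOREM U, block AUT (helper55): two embeddings of a countable field in the complex numbers -/

namespace Pool.MPL

open Cardinal

theorem AUT_aux {F K L ι κ : Type} [Field F] [Field K] [Field L] [Algebra F K] [Algebra F L]
    [IsAlgClosed K] [IsAlgClosed L] (v : ι → K) (w : κ → L) (e : ι ≃ κ)
    (hv : IsTranscendenceBasis F v) (hw : IsTranscendenceBasis F w) :
    ∃ α : K ≃+* L, ∀ a : F, α (algebraMap F K a) = algebraMap F L a := by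
  let := IsAlgClosed.isAlgClosure_of_transcendence_basis v hv
  let := IsAlgClosed.isAlgClosure_of_transcendence_basis w hw
  let f : Algebra.adjoin F (Set.range v) ≃ₐ[F] Algebra.adjoin F (Set.range w) :=
    (hv.1.aevalEquiv.symm.trans (MvPolynomial.renameEquiv F e)).trans hw.1.aevalEquiv
  refine ⟨IsAlgClosure.equivOfEquiv K L f.toRingEquiv, fun a => ?_⟩
  have h := IsAlgClosure.equivOfEquiv_algebraMap K L f.toRingEquiv
    (algebraMap F (Algebra.adjoin F (Set.range v)) a)
  have h1 : algebraMap (Algebra.adjoin F (Set.range v)) K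
      (algebraMap F (Algebra.adjoin F (Set.range v)) a) = algebraMap F K a := rfl
  rw [h1] at h
  rw [h]
  have h2 : f.toRingEquiv (algebraMap F (Algebra.adjoin F (Set.range v)) a) =
      algebraMap F (Algebra.adjoin F (Set.range w)) a := f.commutes a
  rw [h2]
  rfl

theorem AUT_two {F K L : Type} [Field F] [Countable F] [Field K] [Field L] [Algebra F K]
    [Algebra F L] [IsAlgClosed K] [IsAlgClosed L] (hK : ℵ₀ < #K) (hKL : #K = #L) :
    ∃ α : K ≃+* L, ∀ a : F, α (algebraMap F K a) = algebraMap F L a := by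
  obtain ⟨s, hs⟩ := exists_isTranscendenceBasis F K
  obtain ⟨t, ht⟩ := exists_isTranscendenceBasis F L
  have hF : #F ≤ ℵ₀ := mk_le_aleph0
  have h1 : #K = #s :=
    IsAlgClosed.cardinal_eq_cardinal_transcendence_basis_of_aleph0_lt' _ hs hF hK
  have h2 : #L = #t :=
    IsAlgClosed.cardinal_eq_cardinal_transcendence_basis_of_aleph0_lt' _ ht hF (hKL ▸ hK)
  have h3 : #s = #t := by rw [← h1, ← h2, hKL]
  obtain ⟨e⟩ := Cardinal.eq.1 h3
  exact AUT_aux _ _ e hs ht

theorem p_AUT : Stmt_AUT := by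
  intro Ω _ _ τ τ'
  have hC : ℵ₀ < #ℂ := by
    rw [Cardinal.mk_complex]
    exact Cardinal.aleph0_lt_continuum
  exact @AUT_two Ω ℂ ℂ _ _ _ _ τ.toAlgebra τ'.toAlgebra _ _ hC rfl

end Pool.MPL
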