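import Pool.Agent.Work.MP_f82ddf_U.Interface
import Pool.Agent.Work.MP_f82ddf_M.T_FIN

set_option autoImplicit false

/-! # Block DRP, in the general form (at most `c` nodes orthogonal to a nonzero vector) -/

open Pool.Agent.Work.MP_f82ddf_nt.DQ

namespace Pool.MPL

open MvPolynomial
open Pool.Agent.Work.MP_f82ddf_M5 (lineAt resAt chow at2 comb Data)
open Pool.ThmM (NonProp HypData IsRat)
open Pool.ThmM0 (Per)
open Pool.ThmM.Chow (ppt Phi Mov)

/-- a complex vector orthogonal to the same complex vectors as a nonzero vector over `Mer` -/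
theorem DRP_descend {m : ℕ} (x : Fin m → Mer) (hx : x ≠ 0) :
    ∃ v : Fin m → ℂ, v ≠ 0 ∧ ∀ u : Fin m → ℂ,
      ∑ i, algebraMap ℂ Mer (u i) * x i = 0 → ∑ i, v i * u i = 0 := by
  obtain ⟨j, hj⟩ := Function.ne_iff.1 hx
  have h1 : ¬ ∀ φ : Module.Dual ℂ Mer, φ (x j) = 0 := fun h =>
    hj ((Module.forall_dual_apply_eq_zero_iff ℂ (x j)).1 h)
  push Not at h1
  obtain ⟨φ, hφ⟩ := h1
  refine ⟨fun i => φ (x i), fun h0 => hφ (congrFun h0 j), fun u hu => ?_⟩
  have h2 := congrArg φ hu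
  rw [map_sum, map_zero] at h2
  rw [← h2]
  refine Finset.sum_congr rfl fun i _ => ?_
  rw [← Algebra.smul_def, map_smul, smul_eq_mul, mul_comm]

/-- the general form of DRP -/
theorem DRP_gen (hC : Stmt_CORN) (hT : Pool.ThmM.Stmt_TRA) (n c : ℕ) :
    ∃ β : ℕ → ℕ → ℕ, (∀ w d, 2 * c + 1 ≤ β w d) ∧
    ∀ (w d : ℕ) (Q : MvPolynomial (Fin (w + 2)) ℂ)
      (A : Fin (n + 1) → MvPolynomial (Fin (w + 2)) ℂ) (T : Finset (Fin (n + 1) → ℂ))
      (lift : (Fin (n + 1) → ℂ) → (Fin (w + 2) → ℂ)),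
      HypData n w d Q A T lift → β w d ≤ T.card →
      (∀ v : Fin (n + 1) → ℂ, v ≠ 0 → (T.filter fun u => ∑ i, v i * u i = 0).card ≤ c) →
      (∀ (e : ℕ) (f : MvPolynomial (Fin (w + 2)) ℂ), e ≤ β w d → f.IsHomogeneous e →
        (∀ u ∈ T, eval (lift u) f = 0) → Q ∣ f) →
      ∀ (k : ℕ) (x : Fin (n + 1) → Mer), 1 ≤ k → x ≠ 0 → (∀ i, Per (x i)) →
        (∀ u ∈ T, ∃ y : Mer, ∑ i, algebraMap ℂ Mer (u i) * x i = y ^ k) →
        ∃ (c : Mer) (Fix : MvPolynomial (Fin 2 × Fin (w + 2)) ℂ)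
          (Psi : MvPolynomial (Fin 2 × Fin (w + 2)) Mer),
          Phi Mer d Q A x = C c * map (algebraMap ℂ Mer) Fix * Psi ^ k := by
  classical
  obtain ⟨β, hβ⟩ := hC
  obtain ⟨tr, -, -, htr3, htr4⟩ := hT
  refine ⟨fun w d => β w d + c + (2 * c + 1), fun w d => by dsimp only; omega, ?_⟩
  intro w d Q A T lift hH hcard hGP hdiv k x hk hx hper hnode
  dsimp only at hcard hdiv
  set T' : Finset (Fin (n + 1) → ℂ) :=
    T.filter fun u => ∑ i, algebraMap ℂ Mer (u i) * x i ≠ 0 with hT'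
  have hsub : ∀ u ∈ T', u ∈ T := fun u hu => (Finset.mem_filter.1 hu).1
  have hprime : Prime Q := hH.irr.prime
  -- few nodes are thrown away
  have hfew : (T \ T').card ≤ c := by
    obtain ⟨v, hv, hvu⟩ := DRP_descend x hx
    refine le_trans (Finset.card_le_card fun u hu => ?_) (hGP v hv)
    rw [Finset.mem_sdiff] at hu
    refine Finset.mem_filter.2 ⟨hu.1, hvu u ?_⟩
    by_contra hne
    exact hu.2 (Finset.mem_filter.2 ⟨hu.1, hne⟩)
  have hcT : T.card ≤ T'.card + c := by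
    have h1 := Finset.card_sdiff_add_card_inter T T'
    have h2 : (T ∩ T').card ≤ T'.card := Finset.card_le_card Finset.inter_subset_right
    omega
  refine hβ k n w d Q A T' lift x tr hk ?_ ?_ ?_ ?_ htr3 ?_ ?_
  · exact ⟨hH.hw, hH.hwr, hH.hd, hH.irr, hH.homQ, hH.mon, hH.homA,
      fun u hu => hH.zero u (hsub u hu), fun u hu => hH.smooth u (hsub u hu),
      fun u hu => hH.prop u (hsub u hu)⟩
  · intro e f he hf hfz
    choose l hl1 hl2 hl3 using fun u : Fin (n + 1) → ℂ =>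
      Pool.ThmM.FIN.linform hH.hw hH.hd hH.mon (lift u)
    have h1 : (∏ u ∈ T \ T', l u).IsHomogeneous (T \ T').card := by
      have := IsHomogeneous.prod (T \ T') l (fun _ => 1) fun u _ => hl1 u
      simpa using this
    have h2 := hdiv (e + (T \ T').card) (f * ∏ u ∈ T \ T', l u) (by omega) (hf.mul h1) (by
      intro u hu
      rw [map_mul, map_prod]
      by_cases hu' : u ∈ T'
      · rw [hfz u hu', zero_mul]
      · rw [Finset.prod_eq_zero (Finset.mem_sdiff.2 ⟨hu, hu'⟩) (hl2 u), mul_zero])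
    rcases hprime.dvd_or_dvd h2 with h | h
    · exact h
    · rw [Prime.dvd_finsetProd_iff hprime] at h
      obtain ⟨u, -, hu⟩ := h
      exact absurd hu (hl3 u)
  · intro y hy
    by_contra hne
    have h1 := hGP y hne
    have h2 : T'.card ≤ (T.filter fun u => ∑ i, y i * u i = 0).card := by
      refine Finset.card_le_card fun u hu => Finset.mem_filter.2 ⟨hsub u hu, ?_⟩
      rw [← hy u hu]
      exact Finset.sum_congr rfl fun i _ => mul_comm _ _
    have h3 := le_trans h2 h1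
    omega
  · intro u hu
    exact (Finset.mem_filter.1 hu).2
  · intro i
    obtain ⟨f, hf, hx', hp⟩ := hper i
    obtain ⟨hf', h⟩ := htr4 f hf
    rw [hx', h]
    congr 1
    funext z
    exact hp z
  · exact fun u hu => hnode u (hsub u hu)

theorem p_DRP : Stmt_CORN → Pool.ThmM.Stmt_TRA → Stmt_DRP := by
  intro hC hT n
  obtain ⟨β, hβ1, hβ2⟩ := DRP_gen hC hT n n
  exact ⟨β, hβ1, fun w d Q A T lift hH hcard hGP hdiv k x hk hx hper hnode =>
    hβ2 w d Q A T lift hH hcard hGP hdiv k x hk hx hper hnode⟩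

end Pool.MPL
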