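import Pool.Agent.Work.MP_f82ddf_U.Interface2
import Pool.Agent.Work.MP_f82ddf_U.B_DRP

set_option autoImplicit false

/-! # Block DRC: the general form of DRP -/

open Pool.Agent.Work.MP_f82ddf_nt.DQ

namespace Pool.MPL

theorem p_DRC : Stmt_CORN → Pool.ThmM.Stmt_TRA → Stmt_DRC := by
  intro hC hT n c
  obtain ⟨β, hβ1, hβ2⟩ := DRP_gen hC hT n c
  exact ⟨β, hβ1, fun w d Q A T lift hH hcard hGP hdiv k x hk hx hper hnode =>
    hβ2 w d Q A T lift hH hcard hGP hdiv k x hk hx hper hnode⟩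

end Pool.MPL
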