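import Pool.Agent.Work.MP_f82ddf_U.Interface2

set_option autoImplicit false

/-! # THEOREM U: block MPU (points of `X` with values in `Mer`) -/

open Pool.Agent.Work.MP_f82ddf_nt.DQ

namespace Pool.MPL

open MvPolynomial
open Pool.Agent.Work.MP_f82ddf_nt (PSpace HolomorphicOn complexPoints KobayashiHyperbolic)
open Pool.Agent.Work.MP_f82ddf_M5 (lineAt resAt chow at2 comb Data)
open Pool.ThmM (NonProp HypData IsRat)
open Pool.ThmM0 (Per)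
open Pool.ThmM.Chow (ppt Phi Mov)
open Pool.ThmP (Mor OnX OnK tm)

theorem p_MPU (hUEX : Stmt_UEX) (hSLO : Stmt_SLO) (hRKT : Stmt_RKT)
    (hMPT : Pool.ThmP.Stmt_MPT) (hKTH : Pool.ThmP.Stmt_KTH) (hFIB : Pool.ThmP.Stmt_FIB)
    (hCST : Pool.ThmM0.Stmt_CST) : Stmt_MPU := by
  intro n c hn
  obtain ⟨N₁, hN₁⟩ := hUEX n c hn
  refine ⟨c + c * max N₁ (c + 1), ?_⟩
  intro Ω _ _ _ N l hN hl
  obtain ⟨S₁, hNPr, hcard, hlj, hSpn⟩ := hSLO Ω n c N (max N₁ (c + 1)) l hn hl (by omega)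
  obtain ⟨e, D, -, hD, hD0, hDx⟩ :=
    hN₁ Ω S₁ hNPr hSpn ((le_max_left _ _).trans hcard)
  refine ⟨e, D, hD, hD0, ?_⟩
  intro k hk K _ _ m S hS g hg hdiv τ x hx hnc s hs
  obtain ⟨i₀, i, hi₀, hi⟩ := hnc
  obtain ⟨M1, M2⟩ := hMPT K Ω Mer m n S g (tm τ) x hx
  have hx0 : x ≠ 0 := fun h => hi₀ (congrFun h i₀)
  obtain ⟨s₀, hs₀, c₀, hc₀⟩ := M1 hx0
  -- the image is not constant
  have hNC : ∃ j, ∀ z : ℂ, eval₂ (tm τ) x (s₀ j) ≠ algebraMap ℂ Mer z * eval₂ (tm τ) x (s₀ c₀) := by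
    by_contra hcon
    push Not at hcon
    have h1 := hFIB K Ω m n S g hS hg τ x hx s₀ hs₀ c₀ hc₀ i i₀ hi₀
    obtain ⟨z, hz⟩ := hCST n (fun c => eval₂ (tm τ) x (s₀ c)) c₀ hc₀ hcon _ h1
    exact hi z ((div_eq_iff hi₀).1 hz)
  obtain ⟨j₁, hj₁⟩ := hNC
  -- a hyperplane which does not contain the image
  have hu : ∃ u ∈ S₁, ∑ c, tm τ (u c) * eval₂ (tm τ) x (s₀ c) ≠ 0 := by
    by_contra hcon
    push Not at hcon
    have h1 := hSpn S₁ (Finset.Subset.refl _)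
      (lt_of_lt_of_le (Nat.lt_succ_self c) ((le_max_right _ _).trans hcard))
    have h2 := (hRKT Ω Mer (tm τ) n).1 S₁ h1 (fun c => eval₂ (tm τ) x (s₀ c)) hcon
    exact hc₀ (congrFun h2 c₀)
  obtain ⟨u₀, hu₀, hz₀⟩ := hu
  obtain ⟨z₀, hz₀'⟩ : ∃ z₀, z₀ = ∑ c, tm τ (u₀ c) * eval₂ (tm τ) x (s₀ c) := ⟨_, rfl⟩
  have hne : z₀ ≠ 0 := by rw [hz₀']; exact hz₀
  have hNCx : NC (fun c => eval₂ (tm τ) x (s₀ c) / z₀) := by
    refine ⟨c₀, j₁, div_ne_zero hc₀ hne, ?_⟩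
    intro z hz
    apply hj₁ z
    have h1 := congrArg (fun t => t * z₀) hz
    simp only at h1
    rwa [div_mul_cancel₀ _ hne, mul_assoc, div_mul_cancel₀ _ hne] at h1
  have hroots : ∀ u ∈ S₁, ∃ y : Mer,
      ∑ c, tm τ (u c) * (eval₂ (tm τ) x (s₀ c) / z₀) = y ^ k := by
    intro u hu
    obtain ⟨j, hj⟩ := hlj u hu
    obtain ⟨j₀, hj₀⟩ := hlj u₀ hu₀
    have hd : g.Divisible k u := by rw [← hj]; exact hdiv j
    have hd₀ : g.Divisible k u₀ := by rw [← hj₀]; exact hdiv j₀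
    obtain ⟨w, hw⟩ := hKTH K Ω m n k S g (by omega) hS τ x hx s₀ hs₀ u u₀ hd hd₀ hz₀
    refine ⟨w, ?_⟩
    rw [← hw, ← hz₀', Finset.sum_div]
    exact Finset.sum_congr rfl fun c _ => (mul_div_assoc _ _ _).symm
  have hDx' := hDx τ k _ hk hNCx hroots
  -- all the tuples are proportional
  have hprop : (fun c => eval₂ (tm τ) x (s c)) =
      (eval₂ (tm τ) x (s c₀) * z₀ / eval₂ (tm τ) x (s₀ c₀)) •
        fun c => eval₂ (tm τ) x (s₀ c) / z₀ := by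
    funext d
    have h1 := M2 s hs s₀ hs₀ d c₀
    rw [Pi.smul_apply, smul_eq_mul]
    field_simp
    linear_combination h1
  rw [hprop, Pool.Agent.Work.MP_f82ddf_nt.eval₂_smul_hom hD, hDx', mul_zero]

end Pool.MPL
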