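import Pool.Agent.Work.MP_f82ddf_U.Interface2
import Pool.Agent.Work.MP_f82ddf_U.B_PTS

set_option autoImplicit false

/-! # THEOREM U, block PTA (helper55): the result for all the conjugates -/

open Pool.Agent.Work.MP_f82ddf_nt.DQ

namespace Pool.MPL

open MvPolynomial
open Pool.Agent.Work.MP_f82ddf_M5 (lineAt resAt chow at2 comb Data)
open Pool.ThmM (NonProp HypData IsRat)
open Pool.ThmM0 (Per)
open Pool.ThmM.Chow (ppt Phi Mov)

theorem PTA_comp (α : ℂ ≃+* ℂ) {N : ℕ} (e : ℕ) (D : MvPolynomial (Fin N) ℂ) :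
    homogeneousComponent e (aq α D) = aq α (homogeneousComponent e D) := by
  ext m
  rw [aq, aq, coeff_homogeneousComponent, coeff_map, coeff_map, coeff_homogeneousComponent]
  split_ifs
  · rfl
  · exact (map_zero _).symm

theorem p_PTA (hT3 : Pool.ThmM.Stmt_T3) (hDRC : Stmt_DRC) (hUNA : Stmt_UNA) (hTRP : Stmt_TRP)
    (hEXPO : Pool.ThmM0.Stmt_EXPO) : Stmt_PTA := by
  classical
  intro n c hn
  obtain ⟨β, hβ0, hβ⟩ := hDRC n c
  obtain ⟨N₁, dmax, hT⟩ := hT3 n β
  refine ⟨N₁, fun S hS hSp hcard => ?_⟩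
  obtain ⟨w, d, Q, A, T, lift, hyp, -, hTS, hβT, hdiv⟩ := hT S hS hcard
  have hSpT : Spn c T := fun U hU hc => hSp U (hU.trans hTS) hc
  have hTs : ∀ y : Fin (n + 1) → ℂ, (∀ u ∈ T, ∑ i, u i * y i = 0) → y = 0 := by
    intro y hy
    refine hSpT T (Finset.Subset.refl _) ?_ y fun u hu => ?_
    · have h3 := hβ0 w d
      omega
    · rw [← hy u hu]
      exact Finset.sum_congr rfl fun i _ => mul_comm _ _
  have hD := Pool.ThmM.Chow.CORE_data hyp hTs
  obtain ⟨D₀, hD₀, hU⟩ := hUNA (w + 2) n d Q A hn hD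
  have hD₁ : D₀ * X 0 ≠ 0 := mul_ne_zero hD₀ (X_ne_zero _)
  obtain ⟨e, he⟩ : ∃ e, homogeneousComponent e (D₀ * X 0) ≠ 0 := by
    by_contra hcon
    push Not at hcon
    apply hD₁
    rw [← sum_homogeneousComponent (D₀ * X 0)]
    exact Finset.sum_eq_zero fun i _ => hcon i
  have he1 : 1 ≤ e := by
    rcases Nat.eq_zero_or_pos e with h0 | h0
    · exfalso
      apply he
      rw [h0, homogeneousComponent_zero, coeff_mul_X']
      simp
    · exact h0
  refine ⟨e, homogeneousComponent e (D₀ * X 0), he1, homogeneousComponent_isHomogeneous _ _, he,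
    fun α k x hk hNC hpow => ?_⟩
  obtain ⟨hTR1, hTR2, -, hTR4⟩ := hTRP α
  have hyp' := hTR1 n w d Q A T lift hyp
  have hdiv' := hTR2 n w (β w d) Q T lift hdiv
  have hSp' := hTR4 n c T hSpT
  have hβT' : β w d ≤ (T.map (ae α (n + 1))).card := by
    rw [Finset.card_map]
    exact hβT
  have hfil : ∀ v : Fin (n + 1) → ℂ, v ≠ 0 →
      ((T.map (ae α (n + 1))).filter fun u => ∑ i, v i * u i = 0).card ≤ c := by
    intro v hv
    by_contra hcon
    exact hv (hSp' _ (Finset.filter_subset _ _) (not_le.1 hcon) v fun u hu =>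
      (Finset.mem_filter.1 hu).2)
  obtain ⟨φ, hφ⟩ := hEXPO
  have hinj : Function.Injective φ := (φ : Mer →+* Mer).injective
  have hkey : ∀ t : ℂ, t ≠ 0 →
      aeval (fun i => algebraMap ℂ Mer t * φ (x i)) (aq α (D₀ * X 0)) = 0 := by
    intro t ht
    have hφt : (fun i => algebraMap ℂ Mer t * φ (x i)) =
        fun i => φ (algebraMap ℂ Mer t * x i) := by
      funext i
      rw [map_mul, AlgHom.commutes]
    have ht' : algebraMap ℂ Mer t ≠ 0 := (map_ne_zero _).2 ht
    obtain ⟨i₀, j₀, hi₀, hj₀⟩ := hNC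
    have hNC' : NC (fun i => φ (algebraMap ℂ Mer t * x i)) := by
      refine ⟨i₀, j₀, (map_ne_zero _).2 (mul_ne_zero ht' hi₀), fun z hz => hj₀ z ?_⟩
      have h1 : φ (algebraMap ℂ Mer t * x j₀) =
          φ (algebraMap ℂ Mer z * (algebraMap ℂ Mer t * x i₀)) := by
        rw [map_mul φ (algebraMap ℂ Mer z), AlgHom.commutes]
        exact hz
      have h2 := hinj h1
      apply mul_left_cancel₀ ht'
      rw [h2]
      ring
    have hx0 : (fun i => φ (algebraMap ℂ Mer t * x i)) ≠ 0 := by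
      intro h
      have h1 := congrFun h i₀
      exact (map_ne_zero φ).2 (mul_ne_zero ht' hi₀) h1
    obtain ⟨s, hs⟩ := IsAlgClosed.exists_pow_nat_eq t (show 0 < k by omega)
    have hpow' : ∀ u ∈ T.map (ae α (n + 1)), ∃ y : Mer,
        ∑ i, algebraMap ℂ Mer (u i) * φ (algebraMap ℂ Mer t * x i) = y ^ k := by
      intro u hu
      obtain ⟨u₀, hu₀, rfl⟩ := Finset.mem_map.1 hu
      obtain ⟨y, hy⟩ := hpow u₀ (hTS hu₀)
      refine ⟨algebraMap ℂ Mer s * φ y, ?_⟩
      rw [mul_pow, ← map_pow φ, ← hy, ← map_pow, hs, map_sum, Finset.mul_sum]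
      refine Finset.sum_congr rfl fun i _ => ?_
      have h1 : (ae α (n + 1)) u₀ i = α (u₀ i) := rfl
      rw [h1, map_mul, map_mul, AlgHom.commutes, AlgHom.commutes]
      ring
    obtain ⟨c', Fix, Psi, hPhi⟩ := hβ w d (aq α Q) (fun i => aq α (A i))
      (T.map (ae α (n + 1))) _ hyp' hβT' hfil hdiv' k _ (by omega) hx0 (fun i => hφ _) hpow'
    have h3 := hU α k _ c' Fix Psi hk hNC' hPhi
    have h4 : aq α (D₀ * X 0) = aq α D₀ * X 0 := by
      rw [aq, aq, map_mul, map_X]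
    rw [hφt, h4, map_mul, h3, zero_mul]
  have h4 := PTS_comp (aq α (D₀ * X 0)) (fun i => φ (x i)) hkey e
  rw [PTA_comp] at h4
  have h5 : φ (aeval x (aq α (homogeneousComponent e (D₀ * X 0)))) =
      aeval (fun i => φ (x i)) (aq α (homogeneousComponent e (D₀ * X 0))) := by
    rw [← AlgHom.comp_apply]
    congr 1
    refine MvPolynomial.algHom_ext fun i => ?_
    simp
  rw [← h5] at h4
  exact hinj (by rw [h4, map_zero])

end Pool.MPL
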