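import Pool.Agent.Work.MP_f82ddf_U.Interface2

set_option autoImplicit false

/-! # Block SLO (helper58): many pairwise non proportional vectors (edit of MP_f82ddf_M0/B_SEL.lean) -/

namespace Pool.MPL

open Finset

theorem SLO_orth {Ω : Type} [Field Ω] {ρ : ℕ} (hρ : 1 ≤ ρ) (s : Fin (ρ + 1) → Ω) :
    ∃ v : Fin (ρ + 1) → Ω, v ≠ 0 ∧ ∑ i, v i * s i = 0 := by
  classical
  obtain ⟨ρ', rfl⟩ : ∃ ρ', ρ = ρ' + 1 := ⟨ρ - 1, by omega⟩
  by_cases h0 : s 0 = 0
  · refine ⟨Pi.single 0 1, ?_, ?_⟩
    · intro h
      have := congrFun h 0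
      simp at this
    · rw [Finset.sum_eq_single 0]
      · rw [h0, mul_zero]
      · intro i _ hi
        rw [Pi.single_eq_of_ne hi, zero_mul]
      · intro h
        exact absurd (Finset.mem_univ _) h
  · refine ⟨fun i => if i = 0 then s 1 else if i = 1 then - s 0 else 0, ?_, ?_⟩
    · intro h
      have := congrFun h 1
      simp at this
      exact h0 this
    · rw [Fin.sum_univ_succ, Fin.sum_univ_succ]
      have h3 : ∑ i : Fin ρ', (if (i.succ.succ : Fin (ρ' + 1 + 1)) = 0 then s 1
          else if (i.succ.succ : Fin (ρ' + 1 + 1)) = 1 then - s 0 else 0) * s i.succ.succ = 0 := by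
        refine Finset.sum_eq_zero fun i _ => ?_
        rw [if_neg (Fin.succ_ne_zero _), if_neg, zero_mul]
        intro h
        have h4 := congrArg Fin.val h
        simp at h4
      rw [h3]
      have h5 : ((0 : Fin (ρ' + 1)).succ : Fin (ρ' + 1 + 1)) = 1 := rfl
      rw [h5]
      simp
      ring

theorem p_SLO : Stmt_SLO := by
  classical
  intro Ω _ ρ n N N₁ u hρ hu0 hM
  have hu : ∀ v : Fin (ρ + 1) → Ω, v ≠ 0 →
      (Finset.univ.filter fun j => ∑ i, v i * u j i = 0).card ≤ n := by
    intro v hv
    have h1 := hu0 v hv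
    have h2 : {j | ∑ i, u j i * v i = 0} =
        ((Finset.univ.filter fun j => ∑ i, v i * u j i = 0 : Finset (Fin (N + 1))) :
          Set (Fin (N + 1))) := by
      ext j
      rw [Set.mem_ofPred_eq, Finset.mem_coe, Finset.mem_filter]
      constructor
      · intro h
        refine ⟨Finset.mem_univ _, ?_⟩
        rw [← h]
        exact Finset.sum_congr rfl fun i _ => mul_comm _ _
      · rintro ⟨-, h⟩
        rw [← h]
        exact Finset.sum_congr rfl fun i _ => mul_comm _ _
    rw [h2, Set.ncard_coe_finset] at h1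
    exact h1
  -- the nonzero values
  set V : Finset (Fin (ρ + 1) → Ω) := (Finset.univ.image u).filter (fun v => v ≠ 0) with hV
  set F : Finset (Finset (Fin (ρ + 1) → Ω)) :=
    V.powerset.filter (fun S => ∀ v ∈ S, ∀ v' ∈ S, v ≠ v' → NPr v v') with hF
  have hne : F.Nonempty := ⟨∅, by
    rw [hF, Finset.mem_filter]
    exact ⟨Finset.empty_mem_powerset _, by simp⟩⟩
  obtain ⟨S, hS, hmax⟩ := Finset.exists_max_image F Finset.card hne
  rw [hF, Finset.mem_filter, Finset.mem_powerset] at hS
  obtain ⟨hSV, hSp⟩ := hS
  have hS0 : ∀ s ∈ S, s ≠ 0 := fun s hs => (Finset.mem_filter.1 (hSV hs)).2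
  -- every nonzero value is a multiple of an element of S
  have hmul : ∀ j, u j ≠ 0 → ∃ s ∈ S, ∃ c : Ω, u j = c • s := by
    intro j hj
    by_contra hcon
    push Not at hcon
    have hnot : u j ∉ S := fun h => hcon (u j) h 1 (one_smul _ _).symm
    have hins : insert (u j) S ∈ F := by
      rw [hF, Finset.mem_filter, Finset.mem_powerset]
      refine ⟨?_, ?_⟩
      · intro v hv
        rcases Finset.mem_insert.1 hv with rfl | hv
        · rw [hV, Finset.mem_filter]
          exact ⟨Finset.mem_image_of_mem _ (Finset.mem_univ _), hj⟩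
        · exact hSV hv
      · have hnp : ∀ s ∈ S, ∀ a b : Ω, a • u j = b • s → a = 0 ∧ b = 0 := by
          intro s hs a b hab
          have ha : a = 0 := by
            by_contra ha
            apply hcon s hs (a⁻¹ * b)
            rw [mul_smul, ← hab, smul_smul, inv_mul_cancel₀ ha, one_smul]
          refine ⟨ha, ?_⟩
          rw [ha, zero_smul] at hab
          rcases smul_eq_zero.1 hab.symm with h | h
          · exact h
          · exact absurd h (hS0 s hs)
        intro v hv v' hv' hvv'
        rcases Finset.mem_insert.1 hv with rfl | hv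
        · rcases Finset.mem_insert.1 hv' with rfl | hv'
          · exact absurd rfl hvv'
          · exact hnp v' hv'
        · rcases Finset.mem_insert.1 hv' with rfl | hv'
          · intro a b hab
            have := hnp v hv b a hab.symm
            exact ⟨this.2, this.1⟩
          · exact hSp v hv v' hv' hvv'
    have h1 := hmax _ hins
    rw [Finset.card_insert_of_notMem hnot] at h1
    omega
  -- counting
  have hcount : N + 1 ≤ n + n * S.card := by
    have hcov : (Finset.univ : Finset (Fin (N + 1))) ⊆
        (Finset.univ.filter fun j => u j = 0) ∪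
          S.biUnion (fun s => Finset.univ.filter fun j => ∃ c : Ω, u j = c • s) := by
      intro j _
      by_cases hj : u j = 0
      · exact Finset.mem_union_left _ (Finset.mem_filter.2 ⟨Finset.mem_univ _, hj⟩)
      · obtain ⟨s, hs, hc⟩ := hmul j hj
        exact Finset.mem_union_right _ (Finset.mem_biUnion.2
          ⟨s, hs, Finset.mem_filter.2 ⟨Finset.mem_univ _, hc⟩⟩)
    have h0 : (Finset.univ.filter fun j => u j = 0).card ≤ n := by
      refine (Finset.card_le_card ?_).trans (hu (fun _ => 1) ?_)
      · intro j hj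
        rw [Finset.mem_filter] at hj ⊢
        refine ⟨hj.1, ?_⟩
        rw [hj.2]
        simp
      · intro h
        have := congrFun h 0
        simp at this
    have h1 : ∀ s ∈ S, (Finset.univ.filter fun j => ∃ c : Ω, u j = c • s).card ≤ n := by
      intro s _
      obtain ⟨v, hv, hvs⟩ := SLO_orth hρ s
      refine (Finset.card_le_card ?_).trans (hu v hv)
      intro j hj
      rw [Finset.mem_filter] at hj ⊢
      refine ⟨hj.1, ?_⟩
      obtain ⟨c, hc⟩ := hj.2
      rw [hc]
      have : ∑ i, v i * (c • s) i = c * ∑ i, v i * s i := by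
        rw [Finset.mul_sum]
        refine Finset.sum_congr rfl fun i _ => ?_
        rw [Pi.smul_apply, smul_eq_mul]
        ring
      rw [this, hvs, mul_zero]
    calc N + 1 = (Finset.univ : Finset (Fin (N + 1))).card := by simp
      _ ≤ _ := Finset.card_le_card hcov
      _ ≤ _ := Finset.card_union_le _ _
      _ ≤ n + n * S.card := by
          refine Nat.add_le_add h0 ?_
          calc (S.biUnion (fun s => Finset.univ.filter fun j => ∃ c : Ω, u j = c • s)).card
              ≤ ∑ s ∈ S, (Finset.univ.filter fun j => ∃ c : Ω, u j = c • s).card :=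
                Finset.card_biUnion_le
            _ ≤ ∑ _s ∈ S, n := Finset.sum_le_sum h1
            _ = n * S.card := by rw [Finset.sum_const, smul_eq_mul, mul_comm]
  have hSu : ∀ v ∈ S, ∃ j, u j = v := by
    intro v hv
    have := (Finset.mem_filter.1 (hSV hv)).1
    obtain ⟨j, -, hj⟩ := Finset.mem_image.1 this
    exact ⟨j, hj⟩
  refine ⟨S, hSp, ?_, hSu, ?_⟩
  · by_contra hlt
    push Not at hlt
    have : n * S.card ≤ n * N₁ := Nat.mul_le_mul_left _ hlt.le
    omega
  · intro T hT hc v hv
    by_contra hv0
    have hsub : T ⊆ (Finset.univ.filter fun j => ∑ i, v i * u j i = 0).image u := by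
      intro w hw
      obtain ⟨j, rfl⟩ := hSu w (hT hw)
      exact Finset.mem_image_of_mem _ (Finset.mem_filter.2 ⟨Finset.mem_univ _, hv _ hw⟩)
    have h1 := (Finset.card_le_card hsub).trans (Finset.card_image_le.trans (hu v hv0))
    omega

end Pool.MPL
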