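import Pool.Agent.Work.MP_f82ddf_U.Interface2

set_option autoImplicit false

/-! # THEOREM U, block UNA -/

open Pool.Agent.Work.MP_f82ddf_nt.DQ

namespace Pool.MPL

open MvPolynomial
open Pool.Agent.Work.MP_f82ddf_M5 (lineAt resAt chow at2 comb Data)
open Pool.ThmM (NonProp HypData IsRat)
open Pool.ThmM0 (Per)
open Pool.ThmM.Chow (ppt Phi Mov)

/-- `φ = (aeval x) ∘ (map α)` -/
private noncomputable def UNA_phi {n : ℕ} (α : ℂ ≃+* ℂ) (x : Fin (n + 1) → Mer) : RX n →+* Mer :=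
  ((aeval x : RX n →ₐ[ℂ] Mer) : RX n →+* Mer).comp (map (α : ℂ →+* ℂ))

private lemma UNA_phi_alg {n : ℕ} (α : ℂ ≃+* ℂ) (x : Fin (n + 1) → Mer) :
    (UNA_phi α x).comp (algebraMap ℂ (RX n)) = (algebraMap ℂ Mer).comp (α : ℂ →+* ℂ) := by
  ext a
  simp [UNA_phi, algebraMap_eq]

private lemma UNA_phi_X {n : ℕ} (α : ℂ ≃+* ℂ) (x : Fin (n + 1) → Mer) (i : Fin (n + 1)) :
    UNA_phi α x (X i) = x i := by
  simp [UNA_phi]

private lemma UNA_map {σ : Type} {n : ℕ} (α : ℂ ≃+* ℂ) (x : Fin (n + 1) → Mer)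
    (F : MvPolynomial σ ℂ) : map (UNA_phi α x) (map (algebraMap ℂ (RX n)) F) =
      map (algebraMap ℂ Mer) (map (α : ℂ →+* ℂ) F) := by
  rw [map_map, map_map, UNA_phi_alg]

private lemma UNA_UF {N n : ℕ} (hFUN : Pool.Agent.Work.MP_f82ddf_M5.Stmt_FUN) (d : ℕ)
    (Q : MvPolynomial (Fin N) ℂ) (A : Fin (n + 1) → MvPolynomial (Fin N) ℂ) (α : ℂ ≃+* ℂ)
    (x : Fin (n + 1) → Mer) :
    map (UNA_phi α x) (UF d Q A) = Phi Mer d (aq α Q) (fun i => aq α (A i)) x := by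
  unfold UF Phi
  rw [hFUN.2.2.2.2.2, UNA_map]
  congr 1
  unfold comb
  rw [map_sum]
  refine Finset.sum_congr rfl fun i _ => ?_
  rw [map_mul, map_C, UNA_phi_X, UNA_map]
  rfl

theorem p_UNA (hMVP : Stmt_MVP) (hMFC : Stmt_MFC) (hMIR : Stmt_MIR) (hDSC : Stmt_DSC)
    (_hULN : Stmt_ULN) (hUIR : Stmt_UIR) (hTRP : Stmt_TRP)
    (hFUN : Pool.Agent.Work.MP_f82ddf_M5.Stmt_FUN) : Stmt_UNA := by
  intro N n d Q A hn hdat
  obtain ⟨Fix0, H, hF0, hHirr, hUF⟩ := hUIR N n d Q A hn hdat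
  obtain ⟨D, hD, hD2⟩ := hDSC (Fin 2 × Fin N) (RX n) H hHirr
  refine ⟨D, hD, ?_⟩
  intro α k x c Fix Psi hk hnc hPhi
  have hdat' : Data N n d d (aq α Q) (fun i => aq α (A i)) := (hTRP α).2.2.1 N n d Q A hdat
  have hmov := hMVP N n d (aq α Q) (fun i => aq α (A i)) hdat' x hnc
  obtain ⟨P, hPirr, hPmov, hPsq⟩ := hMFC (Fin 2 × Fin N) k _ Psi c Fix hk hmov hPhi
  have hmap : Phi Mer d (aq α Q) (fun i => aq α (A i)) x =
      map (algebraMap ℂ Mer) (map (α : ℂ →+* ℂ) Fix0) * map (UNA_phi α x) H := by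
    rw [← UNA_UF hFUN, hUF, map_mul, inc, UNA_map]
  rw [hmap] at hPsq
  have hF0' : map (α : ℂ →+* ℂ) Fix0 ≠ 0 := by
    intro h0
    exact hF0 (map_injective (α : ℂ →+* ℂ) α.injective (h0.trans (map_zero _).symm))
  have hPH := hPirr.prime.pow_dvd_of_dvd_mul_left 2
    (hMIR (Fin 2 × Fin N) P (map (α : ℂ →+* ℂ) Fix0) hPirr hPmov hF0') hPsq
  have h := hD2 Mer (UNA_phi α x) P hPirr hPH
  exact h

end Pool.MPL
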