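import Pool.Agent.Work.MP_f82ddf_U.Interface

set_option autoImplicit false

/-! # THEOREM M+, block UNI -/

open Pool.Agent.Work.MP_f82ddf_nt.DQ

namespace Pool.MPL

open MvPolynomial
open Pool.Agent.Work.MP_f82ddf_M5 (lineAt resAt chow at2 comb Data)
open Pool.ThmM (NonProp HypData IsRat)
open Pool.ThmM0 (Per)
open Pool.ThmM.Chow (ppt Phi Mov)

private lemma UNI_map {N n : ℕ} (Fix0 : MvPolynomial (Fin 2 × Fin N) ℂ)
    (φ : RX n →ₐ[ℂ] Mer) :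
    map (φ : RX n →+* Mer) (inc n (Fin 2 × Fin N) Fix0) = map (algebraMap ℂ Mer) Fix0 := by
  rw [inc, map_map]
  congr 1
  congr 1
  ext a
  simp

theorem p_UNI (hMVP : Stmt_MVP) (hMFC : Stmt_MFC) (hMIR : Stmt_MIR) (hDSC : Stmt_DSC)
    (hULN : Stmt_ULN) (hUIR : Stmt_UIR) : Stmt_UNI := by
  intro N n d Q A hn hdat
  obtain ⟨Fix0, H, hF0, hHirr, hUF⟩ := hUIR N n d Q A hn hdat
  obtain ⟨D, hD, hD2⟩ := hDSC (Fin 2 × Fin N) (RX n) H hHirr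
  refine ⟨D, hD, ?_⟩
  intro k x c Fix Psi hk hnc hPhi
  have hmov := hMVP N n d Q A hdat x hnc
  obtain ⟨P, hPirr, hPmov, hPsq⟩ := hMFC (Fin 2 × Fin N) k _ Psi c Fix hk hmov hPhi
  have hmap : Phi Mer d Q A x = map (algebraMap ℂ Mer) Fix0 *
      map ((aeval x : RX n →ₐ[ℂ] Mer) : RX n →+* Mer) H := by
    rw [← (hULN N n d Q A hdat).2.2.1 Mer x, hUF, map_mul, UNI_map]
  rw [hmap] at hPsq
  have hPH := hPirr.prime.pow_dvd_of_dvd_mul_left 2 (hMIR (Fin 2 × Fin N) P Fix0 hPirr hPmov hF0)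
    hPsq
  exact hD2 Mer ((aeval x : RX n →ₐ[ℂ] Mer) : RX n →+* Mer) P hPirr hPH

end Pool.MPL
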