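import Pool.Agent.Work.MP_f82ddf_M.Core
import Pool.Agent.Work.MP_f82ddf_M0.Interface

set_option autoImplicit false

/-! # THEOREM M+ (MP_f82ddf_nt, uniform exceptional set), part 1

Folder `Pool/Agent/Work/MP_f82ddf_U`, table `mpl_blocks`.  Block file `B_X.lean`: import this file,
namespace `Pool.MPL`, final theorem `p_X : Stmt_A → Stmt_B → .. → Stmt_X` with the blocks of the
column `uses` as hypotheses, in that order; all other lemmas with the prefix `X_`.  In the column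
`uses` `M5.RES` means `Pool.Agent.Work.MP_f82ddf_M5.Stmt_RES`, `M1.TRA` means
`Pool.ThmM.Stmt_TRA`, `M3.FCH` means `Pool.ThmM.Chow.Stmt_FCH`, `M0.EXPO` means
`Pool.ThmM0.Stmt_EXPO`, `M2.T3` means `Pool.ThmM.Stmt_T3`.

RESULT of this part (`Stmt_PTS`): for large finite sets `S` of linear forms in general position in
`n + 1` variables there is a nonzero form `D` which vanishes at all the points `x` with values in
`Mer`, not constant, for which all the `u(x)`, `u ∈ S`, are `k`-th powers, for every `k ≥ 2`. -/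

open Pool.Agent.Work.MP_f82ddf_nt.DQ

namespace Pool.MPL

open MvPolynomial
open Pool.Agent.Work.MP_f82ddf_M5 (lineAt resAt chow at2 comb Data)
open Pool.ThmM (NonProp HypData IsRat)
open Pool.ThmM0 (Per)
open Pool.ThmM.Chow (ppt Phi Mov)

/-- The coordinate ring of the space of the points `x`. -/
abbrev RX (n : ℕ) : Type := MvPolynomial (Fin (n + 1)) ℂ

/-- The inclusion `ℂ[b] → ℂ[X][b]`, `b` in the variables `σ`. -/
noncomputable def inc (n : ℕ) (σ : Type) : MvPolynomial σ ℂ →+* MvPolynomial σ (RX n) :=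
  map (algebraMap ℂ (RX n))

/-- The universal Chow form, over `ℂ[X_0, .., X_n]`. -/
noncomputable def UF {N n : ℕ} (d : ℕ) (Q : MvPolynomial (Fin N) ℂ)
    (A : Fin (n + 1) → MvPolynomial (Fin N) ℂ) : MvPolynomial (Fin 2 × Fin N) (RX n) :=
  Phi (RX n) d Q A X

/-- The polynomial `Q (s b₁ + b₂)` over `ℂ[b₁, b₂]`. -/
noncomputable def f0 {N : ℕ} (Q : MvPolynomial (Fin N) ℂ) :
    Polynomial (MvPolynomial (Fin 2 × Fin N) ℂ) :=
  lineAt C Q (fun i => X (0, i)) (fun i => X (1, i))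

/-- The same over `ℂ[X][b₁, b₂]`. -/
noncomputable def fR {N : ℕ} (n : ℕ) (Q : MvPolynomial (Fin N) ℂ) :
    Polynomial (MvPolynomial (Fin 2 × Fin N) (RX n)) :=
  (f0 Q).map (inc n (Fin 2 × Fin N))

/-- The polynomial `∑ X_i A_i (s b₁ + b₂)`. -/
noncomputable def gR {N n : ℕ} (A : Fin (n + 1) → MvPolynomial (Fin N) ℂ) :
    Polynomial (MvPolynomial (Fin 2 × Fin N) (RX n)) :=
  ∑ i, Polynomial.C (C (X i)) * fR n (A i)

/-- The point `x` is not constant. -/
def NC {n : ℕ} (x : Fin (n + 1) → Mer) : Prop :=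
  ∃ i j, x i ≠ 0 ∧ ∀ z : ℂ, x j ≠ algebraMap ℂ Mer z * x i

/-- At most `n` elements of `S` are orthogonal to a given nonzero vector. -/
def GP {n : ℕ} (S : Finset (Fin (n + 1) → ℂ)) : Prop :=
  ∀ v : Fin (n + 1) → ℂ, v ≠ 0 → (S.filter fun u => ∑ i, v i * u i = 0).card ≤ n

/-- The polynomial `H (β + s γ)`, `γ = X (inl ·)`, `β = X (inr ·)`. -/
noncomputable def lineG {σ R : Type} [CommRing R] (H : MvPolynomial σ R) :
    Polynomial (MvPolynomial (σ ⊕ σ) R) :=
  eval₂ (Polynomial.C.comp C)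
    (fun i => Polynomial.C (X (Sum.inl i)) * Polynomial.X + Polynomial.C (X (Sum.inr i))) H

/-! ## A. CORE without linear independence -/

/-- CORN (taken by helper71).  CORE for a point `x` which may be linearly dependent, if no node is
orthogonal to `x`.  The proof of CORE (`MP_f82ddf_M/C_CORE.lean`) uses the linear independence only
for this and for `x ≠ 0`. -/
def Stmt_CORN : Prop :=
  ∃ β : ℕ → ℕ → ℕ, ∀ (k r w d : ℕ) (Q : MvPolynomial (Fin (w + 2)) ℂ)
    (A : Fin (r + 1) → MvPolynomial (Fin (w + 2)) ℂ) (T : Finset (Fin (r + 1) → ℂ))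
    (lift : (Fin (r + 1) → ℂ) → (Fin (w + 2) → ℂ)) (x : Fin (r + 1) → Mer)
    (tr : Mer ≃ₐ[ℂ] Mer), 1 ≤ k → HypData r w d Q A T lift →
    (∀ (e : ℕ) (f : MvPolynomial (Fin (w + 2)) ℂ), e ≤ β w d → f.IsHomogeneous e →
      (∀ u ∈ T, eval (lift u) f = 0) → Q ∣ f) →
    (∀ y : Fin (r + 1) → ℂ, (∀ u ∈ T, ∑ i, u i * y i = 0) → y = 0) →
    (∀ u ∈ T, ∑ i, algebraMap ℂ Mer (u i) * x i ≠ 0) →
    (∀ (f : Mer) (n : ℕ), 1 ≤ n → (tr^[n]) f = f → IsRat f → ∃ a : ℂ, f = algebraMap ℂ Mer a) →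
    (∀ i, tr (x i) = x i) →
    (∀ u ∈ T, ∃ y : Mer, ∑ i, algebraMap ℂ Mer (u i) * x i = y ^ k) →
    ∃ (c : Mer) (Fix : MvPolynomial (Fin 2 × Fin (w + 2)) ℂ)
      (Psi : MvPolynomial (Fin 2 × Fin (w + 2)) Mer),
      Phi Mer d Q A x = C c * map (algebraMap ℂ Mer) Fix * Psi ^ k

/-- DRP (150 lines), uses CORN M1.TRA.  Nodes orthogonal to `x` are thrown away.  PROOF.  Let `β` be
the function of CORN, `β' w d = β w d + n + (2 n + 1)`.  Let `T' = {u ∈ T | ∑ u_i x_i ≠ 0}`.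
(a) at most `n` elements of `T` are not in `T'`: if there were `n + 1` of them, the square matrix
`U` over `ℂ` with these rows would have `U x = 0`, `x ≠ 0` over `Mer`, so `det U = 0`
(`Matrix.exists_mulVec_eq_zero_iff`, `RingHom.map_det`), so `U v = 0` with `0 ≠ v ∈ ℂ^(n+1)`,
against `GP T`.  (Choose a subset of cardinality exactly `n + 1` and index it by `Fin (n + 1)`.)
(b) `T'` has at least `n + 1` elements, so by `GP` no nonzero `y` is orthogonal to all of them.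
(c) divisibility for `T'`: let `f` be a form of degree `e ≤ β w d` vanishing at `lift u`, `u ∈ T'`.
For every `u ∈ T \ T'` there is a linear form `ℓ_u` with `ℓ_u(lift u) = 0` and `Q ∤ ℓ_u`
(there are `w + 2 ≥ 3` variables; see the proof of the cardinality claim in
`MP_f82ddf_M/T_FIN.lean`: the linear forms vanishing at a point have dimension `≥ w + 1 ≥ 2`, the
multiples of `Q` among them have dimension `≤ 1`).  The product `f * ∏_(u ∈ T \ T') ℓ_u` is a form
of degree `≤ e + n ≤ β' w d` which vanishes at all the `lift u`, `u ∈ T`; so `Q` divides it, `Q` is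
prime, and `Q ∣ f`.
(d) `HypData` for `T' ⊆ T` is clear.  Apply CORN with `tr` from M1.TRA (`tr (x i) = x i` from
`Per (x i)` as at the end of `MP_f82ddf_M0/B_COREH.lean`). -/
def Stmt_DRP : Prop :=
  ∀ n : ℕ, ∃ β : ℕ → ℕ → ℕ, (∀ w d, 2 * n + 1 ≤ β w d) ∧
    ∀ (w d : ℕ) (Q : MvPolynomial (Fin (w + 2)) ℂ)
      (A : Fin (n + 1) → MvPolynomial (Fin (w + 2)) ℂ) (T : Finset (Fin (n + 1) → ℂ))
      (lift : (Fin (n + 1) → ℂ) → (Fin (w + 2) → ℂ)),
      HypData n w d Q A T lift → β w d ≤ T.card → GP T →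
      (∀ (e : ℕ) (f : MvPolynomial (Fin (w + 2)) ℂ), e ≤ β w d → f.IsHomogeneous e →
        (∀ u ∈ T, eval (lift u) f = 0) → Q ∣ f) →
      ∀ (k : ℕ) (x : Fin (n + 1) → Mer), 1 ≤ k → x ≠ 0 → (∀ i, Per (x i)) →
        (∀ u ∈ T, ∃ y : Mer, ∑ i, algebraMap ℂ Mer (u i) * x i = y ^ k) →
        ∃ (c : Mer) (Fix : MvPolynomial (Fin 2 × Fin (w + 2)) ℂ)
          (Psi : MvPolynomial (Fin 2 × Fin (w + 2)) Mer),
          Phi Mer d Q A x = C c * map (algebraMap ℂ Mer) Fix * Psi ^ k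

/-! ## B. Moving factors -/

/-- MVP (50 lines), uses M5.P5.  The Chow form of a nonconstant point is moving.  PROOF.  Let
`x i ≠ 0` and `x j ≠ z x i` for all `z ∈ ℂ`.  `t = x j / x i` is not a constant, hence transcendental
over `ℂ` (`ℂ` is algebraically closed, `Mer` is a field: `IsAlgClosed.algebraMap_bijective_of..` or
split the minimal polynomial), so the family `fun _ : Fin 1 => t` is algebraically independent.
Suppose `Phi = C c * map G`.  Then `Phi = C c * map G * 1 ^ (n + 1)` and M5.P5 with `k = n + 1`,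
`m = 1` gives `1 * (n + 1) ≤ n`, a contradiction. -/
def Stmt_MVP : Prop :=
  ∀ (N n d : ℕ) (Q : MvPolynomial (Fin N) ℂ) (A : Fin (n + 1) → MvPolynomial (Fin N) ℂ),
    Data N n d d Q A → ∀ x : Fin (n + 1) → Mer, NC x → Mov (Phi Mer d Q A x)

/-- MFC (50 lines), uses M3.FAC.  PROOF.  `Psi ≠ 0` (`Mov Φ` implies `Φ ≠ 0 = C 0 * map 0`).  M3.FAC
with exponent `0` for the polynomial `Psi` gives
`Psi = C c' * map Fix' * Psi' ^ 0 * ∏_(P ∈ s) P ^ m P` with moving irreducible `P ∈ s`,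
`¬ 0 ∣ m P`, that is `m P ≠ 0`.  If `s = ∅` then
`Φ = C (c c' ^ k) * map (Fix * Fix' ^ k)` is not moving.  Otherwise take `P ∈ s`:
`P ∣ Psi`, `P ^ 2 ∣ Psi ^ k ∣ Φ`. -/
def Stmt_MFC : Prop :=
  ∀ (σ : Type) [Finite σ] (k : ℕ) (Φ Psi : MvPolynomial σ Mer) (c : Mer)
    (Fix : MvPolynomial σ ℂ), 2 ≤ k → Mov Φ →
    Φ = C c * map (algebraMap ℂ Mer) Fix * Psi ^ k →
    ∃ P : MvPolynomial σ Mer, Irreducible P ∧ Mov P ∧ P ^ 2 ∣ Φ

/-- MIR (70 lines), uses M1.DVD M1.DZR.  A moving irreducible polynomial does not divide a nonzero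
polynomial with complex coefficients.  PROOF.  Let `map G = P ^ m * F`, `m ≥ 1`, `P ∤ F` (`P` is
prime and `map G ≠ 0`; `exists_eq_pow_mul_and_not_dvd` / `FiniteMultiplicity`).  The
coefficientwise derivative is a derivation and `dz (map G) = 0` (M1.DZR), so
`P ^ (m - 1) (m dz(P) F + P dz(F)) = 0`, so `P ∣ m dz(P) F`, `P ∣ dz P` (`m ≠ 0` in `Mer`, `P` prime,
`P ∤ F`).  By M1.DVD `P` is fixed (`IsFix`), that is not moving. -/
def Stmt_MIR : Prop :=
  ∀ (σ : Type) [Finite σ] (P : MvPolynomial σ Mer) (G : MvPolynomial σ ℂ), Irreducible P →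
    Mov P → G ≠ 0 → ¬ P ∣ map (algebraMap ℂ Mer) G

/-! ## C. The discriminant on a generic line -/

/-- PRG (100 lines).  `H (β + s γ)` is prime if `H` is prime.  PROOF.  The same as
`MP_f82ddf_M5/T_PRI.lean` with `τ = σ`, coefficient ring `R` in place of `ℂ` and the index type `σ`
in place of `Fin N`: `rename Sum.inr H` is prime (`MvPolynomial.prime_rename_iff`), `Polynomial.C` of
it is prime (`Polynomial.prime_C_iff`), and the endomorphism of `(MvPolynomial (σ ⊕ σ) R)[s]` with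
`X (inr i) ↦ X (inr i) + s X (inl i)`, identity on `R`, `X (inl i)`, `s`, is an automorphism and
maps it to `lineG H`. -/
def Stmt_PRG : Prop :=
  ∀ (σ R : Type) [CommRing R] [IsDomain R] (H : MvPolynomial σ R), Prime H → Prime (lineG H)

/-- DSC (150 lines), uses PRG M5.RES.  An element `D ≠ 0` of the coefficient ring which vanishes under
every specialisation for which `H` has a multiple factor.  PROOF.  If `H = C r`: `D = r` (if
`P ^ 2 ∣ C (φ r)` with `φ r ≠ 0`, then `P` is a unit).  Otherwise let `f = lineG H`, `g` its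
derivative with respect to `s`, `m = f.natDegree`.  `m > 0`: if `f = C c`, put `s = 0` and `s = 1`,
`β = 0`: `c(γ, β) = H(β)`, `H(β + γ) = H(β)` so `H(γ) = H(0)` is a constant (apply the
homomorphisms of `MvPolynomial (σ ⊕ σ) R` with `inr ↦ 0`).  `f` is prime (PRG), `g ≠ 0` has smaller
degree (characteristic 0), so `f ∤ g`.  M5.RES with formal degrees `m`, `m - 1`: the resultant
`ρ ∈ MvPolynomial (σ ⊕ σ) R` is not `0`; let `D` be one of its nonzero coefficients.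
SPECIALISATION.  Let `φ : R → M`, `P ^ 2 ∣ map φ H`, `P` irreducible.  `lineG` commutes with `φ`
(`lineG (map φ H) = (lineG H).map (map φ)`, compare on constants and variables) and is a ring
homomorphism, so `p ^ 2 ∣ f'`, `f' = (lineG H).map (map φ)`, `p = lineG P`, hence
`p ∣ f'` and `p ∣ derivative f' = g'`.  The resultant with formal degrees `m`, `m - 1` of `f'`, `g'`
is `map φ ρ` (`resultant_map_map`) and is in the ideal generated by `f'`, `g'`
(`Polynomial.exists_mul_add_mul_eq_C_resultant`), so `p ∣ C (map φ ρ)`.  `p` has positive degree in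
`s` (as above: `P` is not a constant), so `map φ ρ = 0` and `φ D = 0`. -/
def Stmt_DSC : Prop :=
  ∀ (σ R : Type) [Finite σ] [CommRing R] [IsDomain R] [UniqueFactorizationMonoid R] [CharZero R]
    (H : MvPolynomial σ R), Irreducible H →
    ∃ D : R, D ≠ 0 ∧ ∀ (M : Type) [Field M] (φ : R →+* M) (P : MvPolynomial σ M),
      Irreducible P → P ^ 2 ∣ map φ H → φ D = 0

/-! ## D. The universal Chow form -/

/-- FPR (70 lines), uses M5.PRI M5.DEG.  PROOF.  M5.PRI with `τ = Fin N`, `a = X`, and the renaming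
`Fin N ⊕ Fin N ≃ Fin 2 × Fin N` (`MvPolynomial.renameEquiv`, `Polynomial.mapEquiv`; `inl i ↦ (0, i)`,
`inr i ↦ (1, i)`), which maps `lineAt` to `f0` (functoriality `M5.FUN (1)` or directly).  Degree:
M5.DEG: `natDegree ≤ d` and the coefficient of `s ^ d` is `Q(b₁) ≠ 0`.  `1 ≤ d` because `Q` is not a
unit (a form of degree 0 is a constant). -/
def Stmt_FPR : Prop :=
  ∀ (N d : ℕ) (Q : MvPolynomial (Fin N) ℂ), Irreducible Q → Q.IsHomogeneous d →
    1 ≤ d ∧ Prime (f0 Q) ∧ (f0 Q).natDegree = d ∧ (f0 Q).coeff d ≠ 0 ∧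
    ∀ G : MvPolynomial (Fin N) ℂ, f0 Q ∣ f0 G → Q ∣ G

/-- ULN (60 lines), uses M5.FUN M5.DEG M5.LINE M3.FCH.  PROOF.  (1) `Phi (RX n) d Q A X` is by
definition the resultant of `lineAt C (map .. Q)` and `lineAt C (comb .. A X)`; these are `fR n Q`
and `gR A` (M5.FUN (1), (2); `lineAt C` is a ring homomorphism `eval₂Hom`, `lineAt C (C r) = C (C r)`).
(2) degrees.  (3) M3.FCH (1) with `φ = aeval x`.  (4) from (3) with `K = ℂ`, `x = e_0`:
`chow d d Q (comb id A e_0) ≠ 0` by M5.LINE and `Data.nd`. -/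
def Stmt_ULN : Prop :=
  ∀ (N n d : ℕ) (Q : MvPolynomial (Fin N) ℂ) (A : Fin (n + 1) → MvPolynomial (Fin N) ℂ),
    Data N n d d Q A →
    UF d Q A = (fR n Q).resultant (gR A) d d ∧
    ((fR n Q).natDegree ≤ d ∧ (gR A).natDegree ≤ d) ∧
    (∀ (K : Type) [CommRing K] [Algebra ℂ K] (x : Fin (n + 1) → K),
      map ((aeval x : RX n →ₐ[ℂ] K) : RX n →+* K) (UF d Q A) = Phi K d Q A x) ∧
    UF d Q A ≠ 0

/-- TR1 (250 lines), uses FPR ULN M5.RES.  PROOF.  `𝔟 = ℂ[b]`, `𝔭 = 𝔟[s]`, `f₀ = f0 Q ∈ 𝔭` prime,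
`g_i = f0 (A i)`, `K₁` = the field of fractions of the domain `𝔭 / (f₀)`, `ψ : 𝔭 → K₁`, with
`ψ a = 0 ↔ f₀ ∣ a`.  Let `P₁ = MvPolynomial (Fin (n + 1)) 𝔭` and
`Θ : Polynomial (MvPolynomial (Fin 2 × Fin N) (RX n)) → P₁` the ring isomorphism with
`s ↦ C s`, `b_p ↦ C (C (X_p))`, `X_i ↦ X_i` (inverse: `X_i ↦ C (C (X i))`, `p ∈ 𝔭 ↦ p.map inc`).
`Θ (fR n Q) = C f₀`, `Θ (gR A) = ∑ C g_i * X_i`.  Put `Ψ = (map ψ) ∘ Θ`, with values in
`K₁[X_0, .., X_n]`; `Ψ a = 0 ↔ fR n Q ∣ a` (`MvPolynomial.C_dvd_iff_dvd_coeff`).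
`L = Ψ (gR A) = ∑ C (ψ g_i) X_i` is a linear form, not `0` (`f₀ ∤ g_i` by FPR, as
`Q ∤ A i` by `Data.nd` for the unit vector), so it is irreducible
(`MvPolynomial.irreducible_sum_smul_X`, or by degrees) and prime.
`UF` is in the ideal generated by `fR n Q` and `gR A`
(`Polynomial.exists_mul_add_mul_eq_C_resultant`, ULN), so `L ∣ Ψ (C (UF))`.  `UF ≠ 0` is a unit
times a product of irreducible elements (`UniqueFactorizationMonoid`), so `L ∣ Ψ (C H)` for an
irreducible factor `H` of `UF`: `Ψ (C H) = L * M'`, `M' ∈ K₁[X]`.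
DENOMINATORS.  For every `a ∈ K₁` there are `q ∈ 𝔟`, `q ≠ 0`, `p ∈ 𝔭` with `ψ (C q) * a = ψ p`:
`a = ψ u / ψ v` with `f₀ ∤ v`, and `q` = the resultant of `f₀` and `v` (formal degrees the true
ones), not `0` by M5.RES, with `C q = f₀ u' + v v'`, so `ψ (C q) = ψ v * ψ v'` and
`ψ (C q) a = ψ (u v')`.  The product of the `q` for the finitely many coefficients of `M'`
gives `q` with `C (ψ (C q)) * M' = map ψ M₁`, `M₁ ∈ P₁`.  So
`Ψ (C (inc q * H) - gR A * Θ⁻¹ M₁) = 0`, hence it is a multiple of `fR n Q`. -/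
def Stmt_TR1 : Prop :=
  ∀ (N n d : ℕ) (Q : MvPolynomial (Fin N) ℂ) (A : Fin (n + 1) → MvPolynomial (Fin N) ℂ),
    Data N n d d Q A →
    ∃ (H : MvPolynomial (Fin 2 × Fin N) (RX n)) (q : MvPolynomial (Fin 2 × Fin N) ℂ)
      (M P : Polynomial (MvPolynomial (Fin 2 × Fin N) (RX n))),
      Irreducible H ∧ H ∣ UF d Q A ∧ q ≠ 0 ∧
      Polynomial.C (inc n (Fin 2 × Fin N) q * H) = gR A * M + fR n Q * P

/-- TR2 (100 lines), uses FPR ULN TR1.  The universal Chow form divides a power of one of its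
irreducible factors up to an element of `ℂ[b]`.  PROOF.  Take TR1, `E = M.natDegree`,
`f = fR n Q` of degree exactly `d` with leading coefficient `ℓ = inc (Q(b₁))` (`(f0 Q).coeff d`),
`c = inc q * H`.  `f * P = C c - gR A * M` has degree `≤ d + E`, so `P.natDegree ≤ E` (or `P = 0`).
Resultants with formal degrees: `Res_(d, d+E) (f, gR A * M) = Res_(d, d) (f, gR A) * Res_(d, E)
(f, M) = UF * Res_(d, E) (f, M)` (`Polynomial.resultant_mul_right`), and
`Res_(d, d+E) (f, C c - f * P) = Res_(d, d+E) (f, C c)` (`Polynomial.resultant_add_mul_right`)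
`= ± ℓ ^ (d + E) * c ^ d` (`resultant_add_right_deg`, `resultant_C_right`).  So
`UF ∣ inc (ℓ₀ ^ (d + E) * q ^ d) * H ^ d` with `ℓ₀ = (f0 Q).coeff d ≠ 0`. -/
def Stmt_TR2 : Prop :=
  ∀ (N n d : ℕ) (Q : MvPolynomial (Fin N) ℂ) (A : Fin (n + 1) → MvPolynomial (Fin N) ℂ),
    Data N n d d Q A →
    ∃ (H : MvPolynomial (Fin 2 × Fin N) (RX n)) (δ : MvPolynomial (Fin 2 × Fin N) ℂ),
      Irreducible H ∧ H ∣ UF d Q A ∧ δ ≠ 0 ∧ UF d Q A ∣ inc n (Fin 2 × Fin N) δ * H ^ d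

/-- USM (130 lines), uses M5.FUN M5.PTD M5.IDE.  A special line on which the universal Chow form has
a simple linear factor.  PROOF.  `d = e + 1` (`Q` is irreducible).  There is `i*` with
`∂_(i*) Q ≠ 0`, not divisible by `Q` (degree), and `Q ∤ A 0` (`Data.nd`), so by the Nullstellensatz
(as in `MP_f82ddf_M5/T_STP.lean` or `T_P5.lean`) there is `v` with `Q(v) = 0`, `∂_(i*) Q(v) ≠ 0`,
`A_0(v) ≠ 0`.  Let `x⁰ = A_1(v) e_0 - A_0(v) e_1 ∈ ℂ^(n+1)`, not `0`; `G = comb id A x⁰` is a form of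
degree `d` not divisible by `Q`.  M5.PTD with `H = 1`: `b` with `resAt id Q G v b e d ≠ 0`.
`L = ∑ C (A_i(v)) * X i`, a linear form with `L(x⁰) = 0`, irreducible, hence prime (its coefficient
`A_0(v)` is not `0`).  `h = (-1) ^ d * resAt id (map .. Q) (comb .. A X) (C ∘ v) (C ∘ b) e d` over
`RX n`.  By M5.FUN (5) the value of `UF` at the pair `(v, b)` is
`resAt id (map .. Q) (comb .. A X) (C ∘ v) (C ∘ b) d d`, and by M5.IDE (coefficient ring `RX n`,
`Q(v) = 0`) this is `L * h`.  `eval x⁰ h = ± resAt id Q G v b e d ≠ 0` (M5.FUN (3), (4)), so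
`L ∤ h`. -/
def Stmt_USM : Prop :=
  ∀ (N n d : ℕ) (Q : MvPolynomial (Fin N) ℂ) (A : Fin (n + 1) → MvPolynomial (Fin N) ℂ),
    1 ≤ n → Data N n d d Q A →
    ∃ (v b : Fin N → ℂ) (L h : RX n), Prime L ∧ ¬ L ∣ h ∧
      eval (fun p => C (ppt v b p)) (UF d Q A) = L * h

/-- UIR (150 lines), uses ULN TR2 USM.  The universal Chow form is irreducible up to a factor in
`ℂ[b]`.  PROOF.  `H`, `δ` from TR2.  `UF = H ^ μ * F'` with `H ∤ F'` (`UF ≠ 0`), `μ ≥ 1`.
`F' ∣ inc δ * H ^ d` and `H` is prime, not dividing `F'`, so `F' ∣ inc δ`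
(`IsRelPrime`, or induction on `d`).  A divisor of `inc δ ≠ 0` in `ℂ[X][b]` is of the form
`inc Fix₀`: in the ring `ℂ[b][X]` (swap the variables, e.g. `MvPolynomial.commAlgEquiv` or
`sumAlgEquiv`, or two homomorphisms inverse to each other) `δ` is a constant, and
a factor of a nonzero constant is a constant (`MvPolynomial.totalDegree_mul_of_isDomain`).
Take the values at the pair `(v, b)` of USM: `L * h = C (Fix₀(v, b)) * H' ^ μ`, where
`H' = eval (..) H`.  `L * h ≠ 0` (`L ∤ h` so `h ≠ 0`), so `Fix₀(v, b) ≠ 0` is a unit; `L ∣ H' ^ μ`, so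
`L ∣ H'`; if `μ ≥ 2` then `L ^ 2 ∣ L * h` up to a unit and `L ∣ h`, a contradiction.  So `μ = 1`. -/
def Stmt_UIR : Prop :=
  ∀ (N n d : ℕ) (Q : MvPolynomial (Fin N) ℂ) (A : Fin (n + 1) → MvPolynomial (Fin N) ℂ),
    1 ≤ n → Data N n d d Q A →
    ∃ (Fix : MvPolynomial (Fin 2 × Fin N) ℂ) (H : MvPolynomial (Fin 2 × Fin N) (RX n)),
      Fix ≠ 0 ∧ Irreducible H ∧ UF d Q A = inc n (Fin 2 × Fin N) Fix * H

/-- UNI (80 lines), uses MVP MFC MIR DSC ULN UIR.  PROOF.  Take `Fix₀`, `H` from UIR and `D` from DSC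
(`R = RX n`).  Let `x`, `k`, `c`, `Fix`, `Psi` be as in the statement.  MVP, MFC: an irreducible
moving `P` with `P ^ 2 ∣ Phi Mer d Q A x`.  ULN (3): with `φ = aeval x`,
`Phi Mer d Q A x = map φ (UF) = map (algebraMap ℂ Mer) Fix₀ * map φ H`.  MIR: `P ∤ map Fix₀`, and `P`
is prime, so `P ^ 2 ∣ map φ H` (`Prime.pow_dvd_of_dvd_mul_left`).  DSC: `aeval x D = 0`. -/
def Stmt_UNI : Prop :=
  ∀ (N n d : ℕ) (Q : MvPolynomial (Fin N) ℂ) (A : Fin (n + 1) → MvPolynomial (Fin N) ℂ),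
    1 ≤ n → Data N n d d Q A →
    ∃ D : RX n, D ≠ 0 ∧ ∀ (k : ℕ) (x : Fin (n + 1) → Mer) (c : Mer)
      (Fix : MvPolynomial (Fin 2 × Fin N) ℂ) (Psi : MvPolynomial (Fin 2 × Fin N) Mer),
      2 ≤ k → NC x → Phi Mer d Q A x = C c * map (algebraMap ℂ Mer) Fix * Psi ^ k →
      aeval x D = 0

/-! ## E. The result for points with values in `Mer` -/

/-- PTS (120 lines), uses M2.T3 DRP UNI M0.EXPO.  PROOF.  Let `β` be the function of DRP and apply
M2.T3 with `r = n` and this `β`: this gives `N₁`.  For `S` as in the statement we get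
`w, d, Q, A, T, lift` with `T ⊆ S`, `HypData`, `β w d ≤ T.card`, divisibility.  `GP T` follows from
`GP S`.  `T.card ≥ 2 n + 1 > n`, so by `GP T` no nonzero `y` is orthogonal to all `u ∈ T`, and
`CORE_data` (in `MP_f82ddf_M/C_CORE.lean`, import this file) gives `Data (w + 2) n d d Q A`.  UNI:
`D₀ ≠ 0`.  Let `D₁ = D₀ * X 0 ≠ 0`, and `D` = a nonzero homogeneous component of `D₁`, of degree
`e`; `e ≥ 1` since all the monomials of `D₁` contain `X_0`.  Let `x` be as in the statement, `φ` from M0.EXPO,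
`x' = φ ∘ x`, `Per (x' i)`, and `NC x'` (`φ` is an injective homomorphism over `ℂ`).  For every
`t ∈ ℂ`, `t ≠ 0`, the point `t x'` satisfies the hypotheses of DRP (`t` is a `k`-th power in `ℂ`), and
`NC (t x')`; DRP and UNI: `aeval (t x') D₀ = 0`, so `aeval (t x') D₁ = 0`, that is
`∑_j t ^ j aeval x' (D₁)_j = 0` (sum over the homogeneous components) for all `t ∈ ℂ`, `t ≠ 0`.  A
polynomial over `Mer` with infinitely many zeros is `0`, so `aeval x' D = 0`,
`φ (aeval x D) = 0`, `aeval x D = 0`. -/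
def Stmt_PTS : Prop :=
  ∀ n : ℕ, 1 ≤ n → ∃ N₁ : ℕ, ∀ S : Finset (Fin (n + 1) → ℂ),
    (∀ u ∈ S, ∀ v ∈ S, u ≠ v → NonProp u v) → GP S → N₁ ≤ S.card →
    ∃ (e : ℕ) (D : RX n), 1 ≤ e ∧ D.IsHomogeneous e ∧ D ≠ 0 ∧
      ∀ (k : ℕ) (x : Fin (n + 1) → Mer), 2 ≤ k → NC x →
        (∀ u ∈ S, ∃ y : Mer, ∑ i, algebraMap ℂ Mer (u i) * x i = y ^ k) → aeval x D = 0

end Pool.MPL
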