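import Pool.Agent.Work.MP_f82ddf_U.Interface
import Pool.Agent.Work.MP_f82ddf_P.Interface

set_option autoImplicit false

/-! # THEOREM U (MP_f82ddf_nt, uniform exceptional set), part 2

Block files `B_X.lean` in this folder: import this file (they may import other block files for
auxiliary lemmas), namespace `Pool.MPL`, final theorem `p_X`, otherwise as in part 1.  In the
column `uses` `P.KTH` means `Pool.ThmP.Stmt_KTH`.

`n`, `c` are given, `N` is large, `l_0, .., l_N` are hyperplanes of projective `n`-space over the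
algebraic closure `Ω` of a number field, at most `c` of them through any point.  RESULT: there is a
hypersurface `D = 0` over `Ω` such that for every finite morphism `g : X → P^n` for which all the
`g^* l_j` are locally `k`-th powers, `k ≥ 2`, and every `τ : Ω → ℂ` every entire curve in `X_τ` which
is not constant is contained in `Z_τ`, `Z = g^-1 (D = 0)`.  So `X_τ` is hyperbolic if and only if
`Z_τ` is. -/

open Pool.Agent.Work.MP_f82ddf_nt.DQ

namespace Pool.MPL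

open MvPolynomial
open Pool.Agent.Work.MP_f82ddf_nt (PSpace HolomorphicOn complexPoints KobayashiHyperbolic)
open Pool.Agent.Work.MP_f82ddf_M5 (lineAt resAt chow at2 comb Data)
open Pool.ThmM (NonProp HypData IsRat)
open Pool.ThmM0 (Per)
open Pool.ThmM.Chow (ppt Phi Mov)
open Pool.ThmP (Mor OnX OnK tm)

/-- The polynomial with the coefficients `α (..)`. -/
noncomputable def aq (α : ℂ ≃+* ℂ) {N : ℕ} (Q : MvPolynomial (Fin N) ℂ) :
    MvPolynomial (Fin N) ℂ := map (α : ℂ →+* ℂ) Q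

/-- The embedding `u ↦ α ∘ u`. -/
def ae (α : ℂ ≃+* ℂ) (N : ℕ) : (Fin N → ℂ) ↪ (Fin N → ℂ) where
  toFun u i := α (u i)
  inj' u v h := funext fun i => α.injective (congrFun h i)

/-- `u` and `v` are not proportional, and not zero. -/
def NPr {Ω : Type} [Field Ω] {n : ℕ} (u v : Fin (n + 1) → Ω) : Prop :=
  ∀ a b : Ω, a • u = b • v → a = 0 ∧ b = 0

/-- Every subset of `S` with more than `c` elements spans the space. -/
def Spn {Ω : Type} [Field Ω] {n : ℕ} (c : ℕ) (S : Finset (Fin (n + 1) → Ω)) : Prop :=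
  ∀ T ⊆ S, c < T.card → ∀ v : Fin (n + 1) → Ω, (∀ u ∈ T, ∑ i, v i * u i = 0) → v = 0

/-- DRC (150 lines), uses CORN M1.TRA.  The general form of DRP: at most `c` nodes are orthogonal to a
nonzero vector.  PROOF.  As DRP with `β' w d = β w d + c + (2 c + 1)`; (a) if more than `c` elements
of `T` were orthogonal to `x ≠ 0`, `x ∈ Mer^(n+1)`, then the complex matrix with these rows would
have rank `< n + 1` over `Mer`, hence over `ℂ`, and a nonzero complex vector would be orthogonal to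
all of them. -/
def Stmt_DRC : Prop :=
  ∀ n c : ℕ, ∃ β : ℕ → ℕ → ℕ, (∀ w d, 2 * c + 1 ≤ β w d) ∧
    ∀ (w d : ℕ) (Q : MvPolynomial (Fin (w + 2)) ℂ)
      (A : Fin (n + 1) → MvPolynomial (Fin (w + 2)) ℂ) (T : Finset (Fin (n + 1) → ℂ))
      (lift : (Fin (n + 1) → ℂ) → (Fin (w + 2) → ℂ)),
      HypData n w d Q A T lift → β w d ≤ T.card →
      (∀ v : Fin (n + 1) → ℂ, v ≠ 0 → (T.filter fun u => ∑ i, v i * u i = 0).card ≤ c) →
      (∀ (e : ℕ) (f : MvPolynomial (Fin (w + 2)) ℂ), e ≤ β w d → f.IsHomogeneous e →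
        (∀ u ∈ T, eval (lift u) f = 0) → Q ∣ f) →
      ∀ (k : ℕ) (x : Fin (n + 1) → Mer), 1 ≤ k → x ≠ 0 → (∀ i, Per (x i)) →
        (∀ u ∈ T, ∃ y : Mer, ∑ i, algebraMap ℂ Mer (u i) * x i = y ^ k) →
        ∃ (c : Mer) (Fix : MvPolynomial (Fin 2 × Fin (w + 2)) ℂ)
          (Psi : MvPolynomial (Fin 2 × Fin (w + 2)) Mer),
          Phi Mer d Q A x = C c * map (algebraMap ℂ Mer) Fix * Psi ^ k

/-! ## F. Automorphisms of the field of complex numbers -/

/-- TRP (100 lines).  Transport of the data by an automorphism `α`.  Everything is algebraic: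
`aq α` is a ring automorphism of the polynomial ring (inverse `aq α.symm`), so it preserves
irreducibility and divisibility; it maps forms to forms, commutes with `pderiv` and `rename`
(`LastMonic`), `eval (α u) (aq α f) = α (eval u f)`, and `aq α (comb id A y) = comb id (aq α A) (α y)`. -/
def Stmt_TRP : Prop :=
  ∀ α : ℂ ≃+* ℂ,
    (∀ (n w d : ℕ) (Q : MvPolynomial (Fin (w + 2)) ℂ)
      (A : Fin (n + 1) → MvPolynomial (Fin (w + 2)) ℂ) (T : Finset (Fin (n + 1) → ℂ))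
      (lift : (Fin (n + 1) → ℂ) → (Fin (w + 2) → ℂ)), HypData n w d Q A T lift →
      HypData n w d (aq α Q) (fun i => aq α (A i)) (T.map (ae α (n + 1)))
        (fun u => ae α (w + 2) (lift (ae α.symm (n + 1) u)))) ∧
    (∀ (n w b : ℕ) (Q : MvPolynomial (Fin (w + 2)) ℂ) (T : Finset (Fin (n + 1) → ℂ))
      (lift : (Fin (n + 1) → ℂ) → (Fin (w + 2) → ℂ)),
      (∀ (e : ℕ) (f : MvPolynomial (Fin (w + 2)) ℂ), e ≤ b → f.IsHomogeneous e →
        (∀ u ∈ T, eval (lift u) f = 0) → Q ∣ f) →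
      ∀ (e : ℕ) (f : MvPolynomial (Fin (w + 2)) ℂ), e ≤ b → f.IsHomogeneous e →
        (∀ u ∈ T.map (ae α (n + 1)),
          eval (ae α (w + 2) (lift (ae α.symm (n + 1) u))) f = 0) → aq α Q ∣ f) ∧
    (∀ (N n d : ℕ) (Q : MvPolynomial (Fin N) ℂ) (A : Fin (n + 1) → MvPolynomial (Fin N) ℂ),
      Data N n d d Q A → Data N n d d (aq α Q) (fun i => aq α (A i))) ∧
    ∀ (n c : ℕ) (T : Finset (Fin (n + 1) → ℂ)), Spn c T → Spn c (T.map (ae α (n + 1)))

/-- UNA (100 lines), uses MVP MFC MIR DSC ULN UIR TRP M5.FUN.  UNI for all the conjugates of a datum.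
PROOF.  As B_UNI.lean.  `Fix₀`, `H` from UIR, `D` from DSC for `H`.  Let `α` be given and
`φ = (aeval x : RX n →+* Mer).comp (map α)`, a ring homomorphism `RX n → Mer`.
`Phi Mer d (aq α Q) (aq α A) x = map φ (UF d Q A)` (M5.FUN (6): the Chow form commutes with ring
homomorphisms; `φ.comp (algebraMap ℂ (RX n)) = (algebraMap ℂ Mer).comp α`, `φ (X i) = x i`), and this
is `map (algebraMap ℂ Mer) (map α Fix₀) * map φ H`.  `Data` for the conjugate: TRP.  MVP, MFC:
`P ^ 2 ∣ Phi ..`, `P` moving and irreducible; MIR: `P` does not divide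
`map (algebraMap ℂ Mer) (map α Fix₀)`, `map α Fix₀ ≠ 0`; so `P ^ 2 ∣ map φ H` and DSC gives
`φ D = aeval x (aq α D) = 0`. -/
def Stmt_UNA : Prop :=
  ∀ (N n d : ℕ) (Q : MvPolynomial (Fin N) ℂ) (A : Fin (n + 1) → MvPolynomial (Fin N) ℂ),
    1 ≤ n → Data N n d d Q A →
    ∃ D : RX n, D ≠ 0 ∧ ∀ (α : ℂ ≃+* ℂ) (k : ℕ) (x : Fin (n + 1) → Mer) (c : Mer)
      (Fix : MvPolynomial (Fin 2 × Fin N) ℂ) (Psi : MvPolynomial (Fin 2 × Fin N) Mer),
      2 ≤ k → NC x →
      Phi Mer d (aq α Q) (fun i => aq α (A i)) x =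
        C c * map (algebraMap ℂ Mer) Fix * Psi ^ k →
      aeval x (aq α D) = 0

/-- PTA (150 lines), uses M2.T3 DRC UNA TRP M0.EXPO.  PTS for all the conjugates.  PROOF.  As
B_PTS.lean (`Spn c` gives the filter condition of DRC: a filtered subset with more than `c` elements
would span), T3 is applied once, to `S`; for `α` apply DRC to the transported datum (TRP) and UNA;
`D₁ = D₀ * X 0`, `D` = a nonzero homogeneous component; `aq α` commutes with homogeneous
components. -/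
def Stmt_PTA : Prop :=
  ∀ n c : ℕ, 1 ≤ n → ∃ N₁ : ℕ, ∀ S : Finset (Fin (n + 1) → ℂ),
    (∀ u ∈ S, ∀ v ∈ S, u ≠ v → NonProp u v) → Spn c S → N₁ ≤ S.card →
    ∃ (e : ℕ) (D : RX n), 1 ≤ e ∧ D.IsHomogeneous e ∧ D ≠ 0 ∧
      ∀ (α : ℂ ≃+* ℂ) (k : ℕ) (x : Fin (n + 1) → Mer), 2 ≤ k → NC x →
        (∀ u ∈ S, ∃ y : Mer, ∑ i, algebraMap ℂ Mer (α (u i)) * x i = y ^ k) →
        aeval x (aq α D) = 0

/-- AUT (100 lines).  Two embeddings of a countable field in `ℂ` differ by an automorphism of `ℂ`.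
PROOF.  Make `ℂ` an `Ω`-algebra in two ways (`τ.toAlgebra` on two copies of `ℂ`, e.g. by `letI` in
two lemmas or with a type synonym).  Let `B`, `B'` be transcendence bases of `ℂ` over `Ω`
(`exists_isTranscendenceBasis'`).  `ℂ` is algebraically closed and uncountable and `Ω` is countable, so
both have the cardinality of `ℂ` (`IsAlgClosed.cardinal_eq_cardinal_transcendence_basis_of_aleph0_lt`).
`IsAlgClosed.equivOfTranscendenceBasis`. -/
def Stmt_AUT : Prop :=
  ∀ (Ω : Type) [Field Ω] [Countable Ω] (τ τ' : Ω →+* ℂ),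
    ∃ α : ℂ ≃+* ℂ, ∀ a, α (τ a) = τ' a

/-- FXF (100 lines), uses AUT.  The fixed field of the automorphisms over `τ(Ω)`.  PROOF.  `z` is
transcendental over the algebraically closed subfield `F = τ(Ω)`.  Let `F' = F(z)`
(`IntermediateField.adjoin F {z}` or `Subfield.closure`), a countable field, `i : F' → ℂ` the
inclusion and `i' : F' → ℂ` the embedding over `F` with `z ↦ z + 1` (also transcendental;
`F(z)` is the field of rational functions: `IntermediateField.algEquivOfTranscendental` or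
`RatFunc` / `FractionRing (Polynomial F)` lifting of the injective homomorphism
`aeval (z + 1) : F[X] → ℂ`).  AUT for `i`, `i'`. -/
def Stmt_FXF : Prop :=
  ∀ (Ω : Type) [Field Ω] [IsAlgClosed Ω] [Countable Ω] (τ : Ω →+* ℂ) (z : ℂ), (∀ a, τ a ≠ z) →
    ∃ α : ℂ ≃+* ℂ, (∀ a, α (τ a) = τ a) ∧ α z ≠ z

/-- DSE (180 lines), uses FXF.  Descent.  PROOF.  `F = τ(Ω)`, `G` = the group of the automorphisms `α`
with `α (τ a) = τ a`.  Let `e_1, .., e_q` be a basis of the `F`-span of the coefficients of `D` in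
`ℂ`; `q ≥ 1`, and `D = ∑ C (e_κ) * map τ D_κ` with `D_κ ∈ Ω[X]` homogeneous of degree `e`
(coefficientwise), some `D_κ ≠ 0`.  CLAIM: the vectors `(α (e_κ))_κ`, `α ∈ G`, span `ℂ^q`.
Otherwise there is `v ∈ ℂ^q`, `v ≠ 0`, with `∑ v_κ α (e_κ) = 0` for all `α ∈ G`; choose such a `v`
with the smallest number of nonzero coordinates, and `v_(κ₀) = 1`.  For `β ∈ G` apply `β`:
`∑ β(v_κ) (β α)(e_κ) = 0` for all `α ∈ G`, so `β(v)` has the same property, and so has `v - β(v)`,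
which has fewer nonzero coordinates (`κ₀` is gone); so `β(v) = v`.  By FXF all `v_κ ∈ F`, and for
`α = 1` this is a relation between the `e_κ` over `F`, a contradiction.  So
`∑_i c_i α_i (e_κ) = δ_(κ κ₁)` for suitable `c_i ∈ ℂ`, `α_i ∈ G`, where `D_(κ₁) ≠ 0`, and
`∑_i c_i • aq α_i D = ∑_κ (∑_i c_i α_i (e_κ)) map τ D_κ = map τ D_(κ₁)`. -/
def Stmt_DSE : Prop :=
  ∀ (Ω : Type) [Field Ω] [IsAlgClosed Ω] [Countable Ω] (τ : Ω →+* ℂ) (n e : ℕ) (D : RX n),
    D ≠ 0 → D.IsHomogeneous e →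
    ∃ D₀ : MvPolynomial (Fin (n + 1)) Ω, D₀ ≠ 0 ∧ D₀.IsHomogeneous e ∧
      map τ D₀ ∈ Submodule.span ℂ
        {E : RX n | ∃ α : ℂ ≃+* ℂ, (∀ a, α (τ a) = τ a) ∧ E = aq α D}

/-- RKT (70 lines).  Rank and field extensions.  PROOF.  (1) The matrix with the rows `u ∈ T` is
injective over `Ω`, so it has a left inverse over `Ω`
(`LinearMap.exists_leftInverse_of_injective` / `Matrix`); apply `τ`.  (2) If
`a • (τ ∘ u) = b • (τ ∘ v)` with `(a, b) ≠ 0` then all the minors `u i * v j - u j * v i` are `0`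
after `τ`, hence in `Ω`; so `v_j u = u_j v` for all `j`, and NPr gives `u_j = v_j = 0` for all `j`,
so `u = v = 0`, and `1 • u = 0 • v` contradicts NPr. -/
def Stmt_RKT : Prop :=
  ∀ (Ω F : Type) [Field Ω] [Field F] (τ : Ω →+* F) (n : ℕ),
    (∀ T : Finset (Fin (n + 1) → Ω),
      (∀ v : Fin (n + 1) → Ω, (∀ u ∈ T, ∑ i, v i * u i = 0) → v = 0) →
      ∀ y : Fin (n + 1) → F, (∀ u ∈ T, ∑ i, τ (u i) * y i = 0) → y = 0) ∧
    ∀ u v : Fin (n + 1) → Ω, NPr u v → NPr (fun i => τ (u i)) (fun i => τ (v i))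

/-- UEX (120 lines), uses PTA AUT DSE RKT.  The hypersurface over `Ω`.  PROOF.  `N₁` from PTA.  If
there is no homomorphism `Ω → ℂ` take `D = X 0`.  Otherwise fix `τ₀`.  By RKT the image of `S` under
`τ₀` has the properties of PTA (pairwise `NonProp`, `Spn c`; same cardinality): `e`, `D`.  DSE:
`D₀` over `Ω` with `map τ₀ D₀ = ∑_i c_i • aq α_i D`, `α_i` fixing `τ₀(Ω)`.  Let `τ`, `k`, `x` be
given; AUT: `α` with `α ∘ τ₀ = τ`.  `map τ D₀ = map α (map τ₀ D₀) = ∑_i α(c_i) • aq (α ∘ α_i) D`.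
For every `i` and `u ∈ S`: `(α ∘ α_i) (τ₀ (u j)) = τ (u j)`, so PTA for the automorphism `α ∘ α_i`
gives `aeval x (aq (α ∘ α_i) D) = 0`.  So `eval₂ (tm τ) x D₀ = aeval x (map τ D₀) = 0`. -/
def Stmt_UEX : Prop :=
  ∀ n c : ℕ, 1 ≤ n → ∃ N₁ : ℕ, ∀ (Ω : Type) [Field Ω] [IsAlgClosed Ω] [Countable Ω]
    (S : Finset (Fin (n + 1) → Ω)), (∀ u ∈ S, ∀ v ∈ S, u ≠ v → NPr u v) → Spn c S →
    N₁ ≤ S.card →
    ∃ (e : ℕ) (D : MvPolynomial (Fin (n + 1)) Ω), 1 ≤ e ∧ D.IsHomogeneous e ∧ D ≠ 0 ∧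
      ∀ (τ : Ω →+* ℂ) (k : ℕ) (x : Fin (n + 1) → Mer), 2 ≤ k → NC x →
        (∀ u ∈ S, ∃ y : Mer, ∑ i, tm τ (u i) * x i = y ^ k) → eval₂ (tm τ) x D = 0

/-! ## G. Varieties with a finite morphism to projective space -/

/-- SLO (100 lines).  Many pairwise non proportional vectors.  PROOF.  Let `S` be a set of pairwise
`NPr` vectors among the nonzero `l j`, of maximal cardinality (so every nonzero `l j` is a multiple
of an element of `S`).  At most `c` of the `l j` are `0`, and for `u ∈ S` at most `c` of the `l j`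
are multiples of `u` (take `v ≠ 0` orthogonal to `u`, `n ≥ 1`); so `N + 1 ≤ c + c * S.card` and
`N₁ ≤ S.card`.  (See M0/B_SEL.lean.)  `Spn c S`: if `T ⊆ S` has more than `c` elements and `v ≠ 0` is
orthogonal to all of them, then more than `c` of the `l j` are orthogonal to `v`. -/
def Stmt_SLO : Prop :=
  ∀ (Ω : Type) [Field Ω] (n c N N₁ : ℕ) (l : Fin (N + 1) → Fin (n + 1) → Ω), 1 ≤ n →
    (∀ v : Fin (n + 1) → Ω, v ≠ 0 → {j | ∑ i, l j i * v i = 0}.ncard ≤ c) →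
    c + c * N₁ < N + 1 →
    ∃ S : Finset (Fin (n + 1) → Ω), (∀ u ∈ S, ∀ v ∈ S, u ≠ v → NPr u v) ∧ N₁ ≤ S.card ∧
      (∀ u ∈ S, ∃ j, l j = u) ∧ Spn c S

/-- MPU (150 lines), uses UEX SLO RKT P.MPT P.KTH P.FIB M0.CST.  The result for points of `X` with
values in `Mer`.  PROOF.  `N₁` from UEX (increased to be at least `c + 1`), `N₀ = c + c * N₁`; SLO:
`S₁`; UEX: `e`, `D`.  Let `x` be a point of `X` over `Mer`, not constant: `x i₀ ≠ 0`,
`x i ≠ a x i₀` for all `a ∈ ℂ`.  P.MPT (1) (`κ = Mer`, `τ := tm τ`): `s₀ ∈ g.tuples` with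
`y = s₀(x) ≠ 0`, say `y_(c₀) ≠ 0`.  `NC y`: otherwise all `y_c / y_(c₀)` are constants, by P.FIB
`x i / x i₀` is algebraic over `Algebra.adjoin ℂ (range (y_c / y_(c₀)))` and by M0.CST it is a
constant.  By RKT and `Spn c S₁` (`S₁.card > c`) there is `u₀ = l j₀ ∈ S₁` with
`z₀ = ∑ tm τ (u₀ c) * y_c ≠ 0`.  Put `x'_c = y_c / z₀`: `NC x'`, and for `u = l j ∈ S₁` by P.KTH
`∑ tm τ (u c) * x'_c = z_j / z₀` is a `k`-th power.  UEX: `D(x') = 0`, so
`D(y) = z₀ ^ e * D(x') = 0` (`D` is homogeneous).  For any `s ∈ g.tuples` the vector `s(x)` is a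
multiple of `y` (P.MPT (2)), so `D(s(x)) = 0`. -/
def Stmt_MPU : Prop :=
  ∀ n c : ℕ, 1 ≤ n → ∃ N₀ : ℕ, ∀ (Ω : Type) [Field Ω] [IsAlgClosed Ω] [Countable Ω] (N : ℕ)
    (l : Fin (N + 1) → Fin (n + 1) → Ω), N₀ ≤ N →
    (∀ v : Fin (n + 1) → Ω, v ≠ 0 → {j | ∑ i, l j i * v i = 0}.ncard ≤ c) →
    ∃ (e : ℕ) (D : MvPolynomial (Fin (n + 1)) Ω), D.IsHomogeneous e ∧ D ≠ 0 ∧
      ∀ (k : ℕ), 2 ≤ k → ∀ (K : Type) [Field K] [Algebra K Ω] (m : ℕ)
        (S : Set (MvPolynomial (Fin (m + 1)) K)), (∀ F ∈ S, ∃ d, F.IsHomogeneous d) →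
        ∀ (g : Mor K Ω m n S), g.Finite → (∀ j, g.Divisible k (l j)) →
        ∀ (τ : Ω →+* ℂ) (x : Fin (m + 1) → Mer), OnK (tm τ) S x →
          (∃ i₀ i, x i₀ ≠ 0 ∧ ∀ a : ℂ, x i ≠ algebraMap ℂ Mer a * x i₀) →
          ∀ s ∈ g.tuples, eval₂ (tm τ) (fun c => eval₂ (tm τ) x (s c)) D = 0

/-- `Z_τ`: the complex points of `X` which `g` maps into the hypersurface `D = 0`. -/
def ExcSet {K Ω : Type} [Field K] [Field Ω] [Algebra K Ω] {m n : ℕ}
    {S : Set (MvPolynomial (Fin (m + 1)) K)} (g : Mor K Ω m n S)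
    (D : MvPolynomial (Fin (n + 1)) Ω) (τ : Ω →+* ℂ) : Set (PSpace ℂ m) :=
  {p | p ∈ complexPoints S (τ.comp (algebraMap K Ω)) ∧
    ∀ s ∈ g.tuples, eval₂ τ (fun c => eval₂ τ p.rep (s c)) D = 0}

/-- The morphism `g` is onto (on the points over `Ω`). -/
def Onto {K Ω : Type} [Field K] [Field Ω] [Algebra K Ω] {m n : ℕ}
    {S : Set (MvPolynomial (Fin (m + 1)) K)} (g : Mor K Ω m n S) : Prop :=
  ∀ w : Fin (n + 1) → Ω, w ≠ 0 → ∃ v : Fin (m + 1) → Ω, v ≠ 0 ∧ OnX S v ∧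
    ∃ s ∈ g.tuples, (∃ c, eval v (s c) ≠ 0) ∧ ∀ c d, eval v (s c) * w d = eval v (s d) * w c

/-- THEOREM U. -/
def Stmt_U : Prop :=
  ∀ n c : ℕ, 1 ≤ n → ∃ N₀ : ℕ, ∀ N : ℕ, N₀ ≤ N →
    ∀ (K : Type) [Field K] [NumberField K]
      (l : Fin (N + 1) → Fin (n + 1) → AlgebraicClosure K),
      (∀ v : Fin (n + 1) → AlgebraicClosure K, v ≠ 0 → {j | ∑ i, l j i * v i = 0}.ncard ≤ c) →
      ∃ (e : ℕ) (D : MvPolynomial (Fin (n + 1)) (AlgebraicClosure K)),
        D.IsHomogeneous e ∧ D ≠ 0 ∧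
        ∀ (k : ℕ), 2 ≤ k → ∀ (m : ℕ) (S : Set (MvPolynomial (Fin (m + 1)) K)),
          (∀ F ∈ S, ∃ d, F.IsHomogeneous d) →
          ∀ (g : Mor K (AlgebraicClosure K) m n S), g.Finite → (∀ j, g.Divisible k (l j)) →
          (Onto g → ∃ v : Fin (m + 1) → AlgebraicClosure K, v ≠ 0 ∧ OnX S v ∧
            ∃ s ∈ g.tuples, eval (fun c => eval v (s c)) D ≠ 0) ∧
          ∀ (τ : AlgebraicClosure K →+* ℂ),
            (∀ f : ℂ → PSpace ℂ m, HolomorphicOn f Set.univ →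
              (∀ z, f z ∈ complexPoints S (τ.comp (algebraMap K (AlgebraicClosure K)))) →
              (∃ a b, f a ≠ f b) → ∀ z, f z ∈ ExcSet g D τ) ∧
            (KobayashiHyperbolic (complexPoints S (τ.comp (algebraMap K (AlgebraicClosure K)))) ↔
              KobayashiHyperbolic (ExcSet g D τ))

/-- FNU (120 lines), uses MPU M0.MREL.  PROOF of `Stmt_U`.  `AlgebraicClosure K` is countable (`K` is
countable: a number field; `Algebra.IsAlgebraic` over a countable field).  Let `f` be a nonconstant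
entire curve; `exists_mer_of_curve` (DQ/Hol2.lean) with `S`, `σ = τ.comp (algebraMap ..)` gives
`φ`, `x_j = Mer.mk (φ j) (hφ j)`, `x i = 1`, `OnK (tm τ) S x`, and `x l ≠ a` for all constants `a`.
MPU: `D(s(x)) = 0`.  The form `G = map τ (bind₁ s D)` over `ℂ` is homogeneous (the `s c` are forms
of the same degree) with `aeval x G = eval₂ (tm τ) (fun c => eval₂ (tm τ) x (s c)) D = 0`, so by
M0.MREL (with the identity for `s`) `eval (f z).rep G = 0` for all `z`, that is `f z ∈ ExcSet`.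
PROPERNESS.  There is `w ≠ 0` with `D(w) ≠ 0` (`D ≠ 0` over an infinite field; if only `w = 0`, then
`D` would vanish at all `w ≠ 0`, so `D * X_0 = 0` as a function).  The point `v` over `w` has
`s(v) = λ w`, `λ ≠ 0`, and `D(s(v)) = λ ^ e D(w)`.
HYPERBOLICITY.  If `X_τ` is hyperbolic so is every subset (a chain of discs in the subset is a chain
of discs in `X_τ`, so the Kobayashi pseudodistance of the subset is not smaller).  If `X_τ` is not
hyperbolic there is a nonconstant entire curve in `X_τ` (`exists_entire_curve`, Brody/Brody.lean); it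
is contained in `ExcSet`, which is not hyperbolic by `not_kobayashi` (MP_f82ddf_nt/Core.lean). -/
def Stmt_FNU : Prop := Stmt_U

end Pool.MPL
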